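import Pool.Agent.H33PR.Idl
import Pool.Agent.N874.PP.Def

/-!
# Project PR (helper68), part UNI: square classes of square norm with even valuations outside a
# finite set (helper33)
-/

set_option autoImplicit false

open Finset IsDedekindDomain NumberField
open scoped nonZeroDivisors

namespace Pool.Agent.H33PR

open Pool.Agent.N874.PP (Ev)

section nf

variable {K : Type} [Field K] [NumberField K]

omit [NumberField K] in
/-- an integral element which is a square in the field is a square of an integral element -/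
lemma sq_int {a : 𝓞 K} {y : K} (h : y ^ 2 = (a : K)) : ∃ x : 𝓞 K, (x : K) = y ∧ x ^ 2 = a := by
  have h1 : IsIntegral ℤ (y ^ 2) := by
    rw [h]; exact a.2
  have h2 : IsIntegral ℤ y := h1.of_pow two_pos
  refine ⟨⟨y, h2⟩, rfl, ?_⟩
  apply RingOfIntegers.ext
  exact h

/-- the product of two units is a square if a square multiple of it is -/
lemma unit_sq {u : (𝓞 K)ˣ} {a x : 𝓞 K} (ha : a ≠ 0) (h : x ^ 2 = u * (a * a)) :
    ∃ s : (𝓞 K)ˣ, u = s ^ 2 := by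
  have h1 : a ^ 2 ∣ x ^ 2 := ⟨u, by rw [h]; ring⟩
  have h2 : a ∣ x := (IsIntegrallyClosed.pow_dvd_pow_iff two_ne_zero).1 h1
  obtain ⟨s, rfl⟩ := h2
  have h3 : s ^ 2 = u := by
    have h4 : (a ^ 2) * (s ^ 2) = (a ^ 2) * u := by rw [← mul_pow, h]; ring
    exact mul_left_cancel₀ (pow_ne_zero 2 ha) h4
  have h4 : IsUnit s := by
    have : IsUnit (s ^ 2) := by rw [h3]; exact u.isUnit
    exact (isUnit_pow_iff two_ne_zero).1 this
  refine ⟨h4.unit, Units.ext ?_⟩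
  rw [Units.val_pow_eq_pow_val, IsUnit.unit_spec, h3]

end nf

variable {F L : Type} [Field F] [NumberField F] [Field L] [NumberField L] [Algebra F L]

lemma intNorm_ne {x : 𝓞 L} (hx : x ≠ 0) : Algebra.intNorm (𝓞 F) (𝓞 L) x ≠ 0 :=
  Algebra.intNorm_ne_zero.2 hx

lemma coe_intNorm (x : 𝓞 L) : ((Algebra.intNorm (𝓞 F) (𝓞 L) x : 𝓞 F) : F) =
    Algebra.norm F (x : L) :=
  Algebra.algebraMap_intNorm (A := 𝓞 F) (K := F) (L := L) (B := 𝓞 L) x

/-- classes of `F` modulo squares stay different in the class group of `L` modulo squares and the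
classes of primes whose norms are squares -/
lemma class_inj (hodd : Odd (Module.finrank F L)) (T : Finset (HeightOneSpectrum (𝓞 L)))
    (hT : ∀ 𝔔 ∈ T, ∃ I : Ideal (𝓞 F), Ideal.relNorm (𝓞 F) 𝔔.asIdeal = I ^ 2) :
    2 ^ T.card * Nat.card {g : ClassGroup (𝓞 F) // g ^ 2 = 1} ≤
      Nat.card {p : ClassGroup (𝓞 L) × T.powerset // p.1 ^ 2 * ∏ t ∈ p.2.1, cls t = 1} := by
  classical
  set Sq := (powMonoidHom 2 : ClassGroup (𝓞 F) →* ClassGroup (𝓞 F)).range with hSq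
  have hmem : ∀ x : ClassGroup (𝓞 F), x ∈ Sq ↔ ∃ y : ClassGroup (𝓞 F), y ^ 2 = x :=
    fun x => Iff.rfl
  have hrep : ∀ q : ClassGroup (𝓞 F) ⧸ Sq, ∃ 𝔞 : (Ideal (𝓞 F))⁰,
      ((ClassGroup.mk0 𝔞 : ClassGroup (𝓞 F)) : ClassGroup (𝓞 F) ⧸ Sq) = q := by
    intro q
    obtain ⟨g, rfl⟩ := QuotientGroup.mk_surjective q
    obtain ⟨𝔞, rfl⟩ := ClassGroup.mk0_surjective g
    exact ⟨𝔞, rfl⟩
  choose rep hrep' using hrep
  have hne : ∀ q, ((rep q : Ideal (𝓞 F)).map (algebraMap (𝓞 F) (𝓞 L))) ≠ 0 := by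
    intro q h
    have h1 := nonZeroDivisors.coe_ne_zero (rep q)
    rw [Ideal.zero_eq_bot, Ideal.map_eq_bot_iff_of_injective
      (FaithfulSMul.algebraMap_injective (𝓞 F) (𝓞 L))] at h
    exact h1 h
  rw [← card_two (G := ClassGroup (𝓞 F))]
  refine grp T cls (fun q : ClassGroup (𝓞 F) ⧸ Sq => ClassGroup.mk0
    ⟨(rep q : Ideal (𝓞 F)).map (algebraMap (𝓞 F) (𝓞 L)),
      mem_nonZeroDivisors_of_ne_zero (hne q)⟩) ?_
  rintro q q' ⟨b, c, hcT, h⟩
  obtain ⟨𝔟, rfl⟩ := ClassGroup.mk0_surjective b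
  rw [cls_prod, ← map_pow, ← map_mul, ← map_mul, ClassGroup.mk0_eq_mk0_iff] at h
  obtain ⟨x, y, hx, hy, hxy⟩ := h
  have hI : ∀ t : HeightOneSpectrum (𝓞 L), ∃ I : Ideal (𝓞 F), t ∈ T →
      Ideal.relNorm (𝓞 F) t.asIdeal = I ^ 2 := by
    intro t
    by_cases ht : t ∈ T
    · obtain ⟨I, hI⟩ := hT t ht
      exact ⟨I, fun _ => hI⟩
    · exact ⟨⊥, fun h => absurd h ht⟩
  choose I hI using hI
  have h1 := congrArg (Ideal.relNorm (𝓞 F)) hxy
  have hpr : Ideal.relNorm (𝓞 F) (∏ t ∈ c, t.asIdeal) = (∏ t ∈ c, I t) ^ 2 := by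
    rw [map_prod, ← prod_pow]
    exact prod_congr rfl fun t ht => hI t (hcT ht)
  simp only [Submonoid.coe_mul, SubmonoidClass.coe_pow, map_mul, map_pow, Ideal.relNorm_singleton,
    Ideal.relNorm_algebraMap, hpr] at h1
  -- the degree
  have hfin : Module.finrank (𝓞 F) (𝓞 L) = Module.finrank F L := by
    exact (IsFractionRing.finrank_eq (𝓞 F) F (𝓞 L) L).symm
  rw [hfin] at h1
  -- the ideal whose square appears
  have hP : (∏ t ∈ c, I t) ≠ 0 := by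
    intro h0
    rw [h0, zero_pow two_ne_zero, Ideal.zero_eq_bot, Ideal.relNorm_eq_bot_iff] at hpr
    exact prod_ne c hpr
  have hB : Ideal.relNorm (𝓞 F) (𝔟 : Ideal (𝓞 L)) ≠ 0 := by
    intro h0
    rw [Ideal.zero_eq_bot, Ideal.relNorm_eq_bot_iff] at h0
    exact nonZeroDivisors.coe_ne_zero 𝔟 h0
  set 𝔡 : (Ideal (𝓞 F))⁰ := ⟨Ideal.relNorm (𝓞 F) (𝔟 : Ideal (𝓞 L)) * ∏ t ∈ c, I t,
    mem_nonZeroDivisors_of_ne_zero (mul_ne_zero hB hP)⟩ with h𝔡
  have h2 : ClassGroup.mk0 ((rep q) ^ Module.finrank F L) =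
      ClassGroup.mk0 ((rep q') ^ Module.finrank F L * 𝔡 ^ 2) := by
    rw [ClassGroup.mk0_eq_mk0_iff]
    refine ⟨Algebra.intNorm (𝓞 F) (𝓞 L) x, Algebra.intNorm (𝓞 F) (𝓞 L) y, intNorm_ne hx,
      intNorm_ne hy, ?_⟩
    rw [Submonoid.coe_mul, SubmonoidClass.coe_pow, SubmonoidClass.coe_pow, SubmonoidClass.coe_pow,
      h1, h𝔡]
    simp only [mul_pow, mul_assoc]
  rw [map_mul, map_pow, map_pow, map_pow] at h2
  have hsq : ∀ g : ClassGroup (𝓞 F) ⧸ Sq, g ^ 2 = 1 := by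
    intro g
    obtain ⟨g, rfl⟩ := QuotientGroup.mk_surjective g
    rw [← QuotientGroup.mk_pow, QuotientGroup.eq_one_iff]
    exact ⟨g, rfl⟩
  have h3 := congrArg (fun g : ClassGroup (𝓞 F) => (g : ClassGroup (𝓞 F) ⧸ Sq)) h2
  simp only [QuotientGroup.mk_mul, QuotientGroup.mk_pow, hsq, mul_one, hrep'] at h3
  obtain ⟨k, hk⟩ := hodd
  rw [hk, pow_succ, pow_succ, pow_mul, pow_mul] at h3
  have h4 : q ^ 2 = 1 := hsq q
  have h5 : q' ^ 2 = 1 := hsq q'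
  rw [h4, h5, one_pow, one_mul, one_mul] at h3
  exact h3

/-- the relations -/
abbrev WW {L : Type} [Field L] [NumberField L] (T : Finset (HeightOneSpectrum (𝓞 L))) : Type :=
  {p : ClassGroup (𝓞 L) × T.powerset // p.1 ^ 2 * ∏ t ∈ p.2.1, cls t = 1}

/-- **Part UNI of project PR.** `L / F` of odd degree, `T` a finite set of primes of `L` whose norms are
squares: there are at least `2 ^ (|T| + r_L - r_F)` classes of square norm with even valuations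
outside `T`. -/
theorem uni_aux (F L : Type) [Field F] [NumberField F] [Field L] [NumberField L] [Algebra F L]
    (hodd : Odd (Module.finrank F L)) (T : Finset (HeightOneSpectrum (𝓞 L)))
    (hT : ∀ 𝔔 ∈ T, ∃ I : Ideal (𝓞 F), Ideal.relNorm (𝓞 F) 𝔔.asIdeal = I ^ 2) :
    ∃ A : Finset L, 2 ^ (T.card + Fintype.card (InfinitePlace L)) ≤
      A.card * 2 ^ Fintype.card (InfinitePlace F) ∧
    (∀ α ∈ A, α ≠ 0 ∧ IsSquare (Algebra.norm F α) ∧ ∀ 𝔓 ∉ T, Ev 𝔓 α) ∧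
    ∀ α ∈ A, ∀ β ∈ A, IsSquare (α * β) → α = β := by
  classical
  obtain ⟨RL, hRL, -, hRL'⟩ := units_sq L
  obtain ⟨RF, hRF, hRFs, -⟩ := units_sq F
  have hgen : ∀ w : WW T,
      ∃ (a : 𝓞 L) (𝔟 : (Ideal (𝓞 L))⁰), a ≠ 0 ∧ ClassGroup.mk0 𝔟 = w.1.1 ∧
        Ideal.span {a} = (𝔟 : Ideal (𝓞 L)) ^ 2 * ∏ t ∈ w.1.2.1, t.asIdeal :=
    fun w => exists_gen _ _ w.2
  choose a 𝔟 ha hb hab using hgen
  have : Fintype (WW T) := Fintype.ofFinite _
  let v : RL × WW T → 𝓞 L := fun z => ((z.1 : (𝓞 L)ˣ) : 𝓞 L) * a z.2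
  have hv0 : ∀ z, v z ≠ 0 := fun z => mul_ne_zero (Units.ne_zero _) (ha _)
  -- distinct modulo squares
  have hdist : ∀ z z' : RL × WW T, (∃ x : 𝓞 L, x ^ 2 = v z * v z') → z = z' := by
    rintro ⟨u, w⟩ ⟨u', w'⟩ ⟨x, hx⟩
    have hx' : x ^ 2 = ((u.1 * u'.1 : (𝓞 L)ˣ) : 𝓞 L) * (a w * a w') := by
      rw [hx, Units.val_mul]
      simp only [v]
      ring
    obtain ⟨h1, h2⟩ := rel_unique w.2 (hb w) (hb w') (hab w) (hab w') hx'
    have hw : w = w' := Subtype.ext (Prod.ext h1 (Subtype.ext h2))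
    subst hw
    obtain ⟨s, hs⟩ := unit_sq (ha w) hx'
    have hu : u = u' := Subtype.ext (hRL' _ u.2 _ u'.2 ⟨s, hs⟩)
    rw [hu]
  -- the norms
  have hI : ∀ t : HeightOneSpectrum (𝓞 L), ∃ I : Ideal (𝓞 F), t ∈ T →
      Ideal.relNorm (𝓞 F) t.asIdeal = I ^ 2 := by
    intro t
    by_cases ht : t ∈ T
    · obtain ⟨I, hI⟩ := hT t ht
      exact ⟨I, fun _ => hI⟩
    · exact ⟨⊥, fun h => absurd h ht⟩
  choose I hI using hI
  let n : RL × WW T → 𝓞 F := fun z => Algebra.intNorm (𝓞 F) (𝓞 L) (v z)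
  have hn0 : ∀ z, n z ≠ 0 := fun z => intNorm_ne (hv0 z)
  let 𝔠 : RL × WW T → Ideal (𝓞 F) := fun z =>
    Ideal.relNorm (𝓞 F) (𝔟 z.2 : Ideal (𝓞 L)) * ∏ t ∈ z.2.1.2.1, I t
  have h𝔠 : ∀ z, Ideal.span {n z} = 𝔠 z ^ 2 := by
    intro z
    have h1 : Ideal.span {v z} = Ideal.span {a z.2} :=
      Ideal.span_singleton_mul_left_unit (Units.isUnit _) _
    have hpr : Ideal.relNorm (𝓞 F) (∏ t ∈ z.2.1.2.1, t.asIdeal) = (∏ t ∈ z.2.1.2.1, I t) ^ 2 := by
      rw [map_prod, ← prod_pow]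
      exact prod_congr rfl fun t ht => hI t (mem_powerset.1 z.2.1.2.2 ht)
    have h2 : Ideal.span {n z} = Ideal.relNorm (𝓞 F) (Ideal.span {v z}) :=
      (Ideal.relNorm_singleton (𝓞 F) (v z)).symm
    rw [h2, h1, hab, map_mul, map_pow, hpr, mul_pow]
  have h𝔠0 : ∀ z, 𝔠 z ≠ 0 := by
    intro z h0
    have h1 := h𝔠 z
    rw [h0, zero_pow two_ne_zero, Ideal.zero_eq_bot, Ideal.span_singleton_eq_bot] at h1
    exact hn0 z h1
  have hγ : ∀ z, (ClassGroup.mk0 ⟨𝔠 z, mem_nonZeroDivisors_of_ne_zero (h𝔠0 z)⟩) ^ 2 = 1 := by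
    intro z
    rw [← map_pow]
    have h1 := (ClassGroup.mk0_eq_one_iff (I := 𝔠 z ^ 2)
      (mem_nonZeroDivisors_of_ne_zero (pow_ne_zero 2 (h𝔠0 z)))).2 ⟨⟨n z, (h𝔠 z).symm⟩⟩
    exact h1
  let f : RL × WW T → {g : ClassGroup (𝓞 F) // g ^ 2 = 1} := fun z => ⟨_, hγ z⟩
  have hrel : ∀ z z0, f z = f z0 → ∃ r : RF, ∃ x y : 𝓞 F, x ≠ 0 ∧ y ≠ 0 ∧
      x ^ 2 * n z = ((r : (𝓞 F)ˣ) : 𝓞 F) * (y ^ 2 * n z0) := by
    intro z z0 h
    have h1 := congrArg Subtype.val h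
    simp only [f] at h1
    rw [ClassGroup.mk0_eq_mk0_iff] at h1
    obtain ⟨x, y, hx, hy, hxy⟩ := h1
    have h2 : Ideal.span {y ^ 2 * n z0} = Ideal.span {x ^ 2 * n z} := by
      rw [← Ideal.span_singleton_mul_span_singleton, ← Ideal.span_singleton_mul_span_singleton,
        ← Ideal.span_singleton_pow, ← Ideal.span_singleton_pow, h𝔠, h𝔠, ← mul_pow, ← mul_pow]
      exact (congrArg (fun J : Ideal (𝓞 F) => J ^ 2) hxy).symm
    rw [Ideal.span_singleton_eq_span_singleton] at h2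
    obtain ⟨u, hu⟩ := h2
    obtain ⟨r, hr, s, hs⟩ := hRFs u
    refine ⟨⟨r, hr⟩, x, (s : 𝓞 F) * y, hx, mul_ne_zero (Units.ne_zero _) hy, ?_⟩
    rw [← hu, hs, Units.val_mul, Units.val_pow_eq_pow_val]
    ring
  have hRFne : Nonempty RF := by
    have h1 : 0 < RF.card := by rw [hRF]; positivity
    obtain ⟨r, hr⟩ := card_pos.1 h1
    exact ⟨⟨r, hr⟩⟩
  have hRLne : Nonempty RL := by
    have h1 : 0 < RL.card := by rw [hRL]; positivity
    obtain ⟨r, hr⟩ := card_pos.1 h1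
    exact ⟨⟨r, hr⟩⟩
  have hcls : 2 ^ T.card * Nat.card {g : ClassGroup (𝓞 F) // g ^ 2 = 1} ≤ Nat.card (WW T) :=
    class_inj (F := F) hodd T hT
  have hC : 0 < Nat.card {g : ClassGroup (𝓞 F) // g ^ 2 = 1} := by
    have : Nonempty {g : ClassGroup (𝓞 F) // g ^ 2 = 1} := ⟨⟨1, one_pow 2⟩⟩
    exact Nat.card_pos
  have hWne : Nonempty (WW T) := by
    have h1 : 0 < Nat.card (WW T) := lt_of_lt_of_le (by positivity) hcls
    exact (Nat.card_pos_iff.1 h1).1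
  let g : RL × WW T → RL × WW T → RF := fun z0 z =>
    if h : ∃ r : RF, ∃ x y : 𝓞 F, x ≠ 0 ∧ y ≠ 0 ∧
      x ^ 2 * n z = ((r : (𝓞 F)ˣ) : 𝓞 F) * (y ^ 2 * n z0) then h.choose
    else Classical.arbitrary RF
  have hg : ∀ z0 z, f z = f z0 → ∃ x y : 𝓞 F, x ≠ 0 ∧ y ≠ 0 ∧
      x ^ 2 * n z = ((g z0 z : (𝓞 F)ˣ) : 𝓞 F) * (y ^ 2 * n z0) := by
    intro z0 z h
    have h1 := hrel z z0 h
    simp only [g, dif_pos h1]
    exact h1.choose_spec
  obtain ⟨FF, hFF⟩ := exists_key f g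
    (fun z z' => IsSquare (Algebra.norm F (v z : L) * Algebra.norm F (v z' : L))) (by
      intro z0 z z' h h' hgg
      obtain ⟨x, y, hx, hy, e⟩ := hg z0 z h
      obtain ⟨x', y', hx', hy', e'⟩ := hg z0 z' h'
      rw [← hgg] at e'
      have e1 : ((x : F)) ^ 2 * (n z : F) = (((g z0 z : (𝓞 F)ˣ) : 𝓞 F) : F) *
          ((y : F) ^ 2 * (n z0 : F)) := by exact_mod_cast congrArg (algebraMap (𝓞 F) F) e
      have e2 : ((x' : F)) ^ 2 * (n z' : F) = (((g z0 z : (𝓞 F)ˣ) : 𝓞 F) : F) *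
          ((y' : F) ^ 2 * (n z0 : F)) := by exact_mod_cast congrArg (algebraMap (𝓞 F) F) e'
      have hxF : (x : F) ≠ 0 := fun h0 => hx (RingOfIntegers.ext h0)
      have hxF' : (x' : F) ≠ 0 := fun h0 => hx' (RingOfIntegers.ext h0)
      show IsSquare (Algebra.norm F (v z : L) * Algebra.norm F (v z' : L))
      rw [← coe_intNorm, ← coe_intNorm]
      refine ⟨(((g z0 z : (𝓞 F)ˣ) : 𝓞 F) : F) * (y : F) * (y' : F) * (n z0 : F) /
        ((x : F) * (x' : F)), ?_⟩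
      have e3 : (n z : F) = (((g z0 z : (𝓞 F)ˣ) : 𝓞 F) : F) *
          ((y : F) ^ 2 * (n z0 : F)) / (x : F) ^ 2 := by
        rw [← e1]; field_simp
      have e4 : (n z' : F) = (((g z0 z : (𝓞 F)ˣ) : 𝓞 F) : F) *
          ((y' : F) ^ 2 * (n z0 : F)) / (x' : F) ^ 2 := by
        rw [← e2]; field_simp
      change (n z : F) * (n z' : F) = _
      rw [e3, e4]
      field_simp)
  have : Fintype {g : ClassGroup (𝓞 F) // g ^ 2 = 1} := Fintype.ofFinite _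
  obtain ⟨x0, hx0⟩ := exists_fiber FF
  set Z0 := univ.filter fun z => FF z = x0 with hZ0
  have e1 : Fintype.card (WW T) = Nat.card (WW T) := Nat.card_eq_fintype_card.symm
  have e2 : Fintype.card {g : ClassGroup (𝓞 F) // g ^ 2 = 1} =
      Nat.card {g : ClassGroup (𝓞 F) // g ^ 2 = 1} := Nat.card_eq_fintype_card.symm
  rw [Fintype.card_prod, Fintype.card_prod, Fintype.card_coe, Fintype.card_coe, hRL, hRF, e1,
    e2] at hx0
  have hbig : 2 ^ (T.card + Fintype.card (InfinitePlace L)) ≤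
      Z0.card * 2 ^ Fintype.card (InfinitePlace F) := by
    have h1 : (2 ^ (T.card + Fintype.card (InfinitePlace L))) *
        Nat.card {g : ClassGroup (𝓞 F) // g ^ 2 = 1} ≤
        (Z0.card * 2 ^ Fintype.card (InfinitePlace F)) *
          Nat.card {g : ClassGroup (𝓞 F) // g ^ 2 = 1} := by
      calc (2 ^ (T.card + Fintype.card (InfinitePlace L))) *
          Nat.card {g : ClassGroup (𝓞 F) // g ^ 2 = 1}
          = 2 ^ Fintype.card (InfinitePlace L) *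
            (2 ^ T.card * Nat.card {g : ClassGroup (𝓞 F) // g ^ 2 = 1}) := by ring
        _ ≤ 2 ^ Fintype.card (InfinitePlace L) * Nat.card (WW T) := Nat.mul_le_mul_left _ hcls
        _ ≤ _ := hx0
        _ = _ := by ring
    exact Nat.le_of_mul_le_mul_right h1 hC
  have hZne : Z0.Nonempty := by
    rw [← card_pos]
    by_contra h0
    have h1 : Z0.card = 0 := by omega
    rw [h1, zero_mul] at hbig
    have h2 : 0 < 2 ^ (T.card + Fintype.card (InfinitePlace L)) := by positivity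
    omega
  obtain ⟨z0, hz0⟩ := hZne
  have hz0' : FF z0 = x0 := (mem_filter.1 hz0).2
  have hvL : ∀ z, (v z : L) ≠ 0 := fun z h0 => hv0 z (RingOfIntegers.ext h0)
  -- the products with `v z0`
  have hdist' : ∀ z z' : RL × WW T, IsSquare (((v z : L) * (v z0 : L)) * ((v z' : L) * (v z0 : L))) →
      z = z' := by
    rintro z z' ⟨y, hy⟩
    have h1 : (y / (v z0 : L)) ^ 2 = ((v z * v z' : 𝓞 L) : L) := by
      have h2 : ((v z * v z' : 𝓞 L) : L) = (v z : L) * (v z' : L) := rfl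
      rw [h2, div_pow, pow_two y, ← hy]
      have := hvL z0
      field_simp
    obtain ⟨x, -, hx⟩ := sq_int h1
    exact hdist z z' ⟨x, hx⟩
  refine ⟨Z0.image fun z => (v z : L) * (v z0 : L), ?_, ?_, ?_⟩
  · rw [card_image_of_injective]
    · exact hbig
    · intro z z' h
      apply hdist'
      exact ⟨(v z : L) * (v z0 : L), by rw [show (v z' : L) * (v z0 : L) = _ from h.symm]⟩
  · intro α hα
    obtain ⟨z, hz, rfl⟩ := mem_image.1 hα
    refine ⟨mul_ne_zero (hvL _) (hvL _), ?_, ?_⟩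
    · rw [map_mul]
      exact hFF z z0 ((mem_filter.1 hz).2.trans hz0'.symm)
    · intro 𝔓 h𝔓
      have hev : ∀ z, Ev 𝔓 (v z : L) := by
        intro z
        have h1 : Ideal.span {v z} = (𝔟 z.2 : Ideal (𝓞 L)) ^ 2 * ∏ t ∈ z.2.1.2.1, t.asIdeal := by
          rw [← hab]
          exact Ideal.span_singleton_mul_left_unit (Units.isUnit _) _
        exact ev_of_span L 𝔓 (hv0 z) (nonZeroDivisors.coe_ne_zero (𝔟 z.2)) _ h1
          fun hmem => h𝔓 (mem_powerset.1 z.2.1.2.2 hmem)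
      obtain ⟨y, hy⟩ := hev z
      obtain ⟨y', hy'⟩ := hev z0
      exact ⟨y * y', by rw [map_mul, map_mul, hy, hy', mul_pow]⟩
  · intro α hα β hβ h
    obtain ⟨z, hz, rfl⟩ := mem_image.1 hα
    obtain ⟨z', hz', rfl⟩ := mem_image.1 hβ
    rw [hdist' z z' h]

end Pool.Agent.H33PR
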