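import Pool.Agent.H93PR.Badq3
import Pool.Agent.H68K.PR.StmT

/-!
# Project PR, part BADT: pairs of symmetric matrices in boxes, with conditions at the primes which
# do not divide the determinant of `A`: distinguished at `Z`, not distinguished at `U`

After `Pool/Agent/H93PR/Badq1.lean` of helper93.
-/

set_option autoImplicit false
set_option linter.all false

open Polynomial Matrix NumberField
open scoped Classical

namespace Pool.Agent.H33PR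

open Pool.Agent.N352.PJ (Mt Typ dd)
open Pool.Agent.N783.PQ (chp form Dist Gap Mid Deep eA eB eU uu)
open Pool.Agent.N783.PF
open Pool.Agent.N951.PQ (P2 mem_P2 card_P2 sum_P2 sum_w card_erase)
open Pool.Agent.N456.PF
open Pool.Agent.H93PR (Cop SA mem_SA good_sub dvd_norm prod_bad)

/-- `S_CQN` for all `g` -/
def CQNg (g : ℕ) : Prop := ∀ (κ : Type) [Field κ] [Finite κ], (2 : κ) ≠ 0 →
  ∀ h : κ[X], h.Monic → Irreducible h → h.natDegree = 2 * g → ∀ A : Mt g κ, A.IsSymm →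
  (∃ x : κ, x ≠ 0 ∧ A.det = (-1) ^ g * x ^ 2) →
  2 * Nat.card {B : Mt g κ // B.IsSymm ∧ chp A B = X * h ∧ ¬ Dist A B} ≤
    Nat.card κ ^ (g * (2 * g + 1))

/-- the weights -/
def mw (Z U : Finset ℕ) (q : ℕ) : ℕ := if q ∈ Z ∨ q ∈ U then 2 else 1

theorem mw_le (Z U : Finset ℕ) (q : ℕ) : mw Z U q ≤ 2 := by
  unfold mw
  split_ifs <;> norm_num

theorem one_le_mw (Z U : Finset ℕ) (q : ℕ) : 1 ≤ mw Z U q := by
  unfold mw
  split_ifs <;> norm_num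

theorem prod_mw {S Z U : Finset ℕ} (hZ : Z ⊆ S) (hU : U ⊆ S) (hd : Disjoint Z U) :
    ∏ q ∈ S, mw Z U q = 2 ^ (Z.card + U.card) := by
  unfold mw
  rw [Finset.prod_ite, Finset.prod_const_one, mul_one, Finset.prod_const,
    ← Finset.card_union_of_disjoint hd]
  congr 2
  ext q
  rw [Finset.mem_filter, Finset.mem_union]
  constructor
  · exact fun h => h.2
  · intro h
    refine ⟨?_, h⟩
    rcases h with h | h
    · exact hZ h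
    · exact hU h

section fld

variable {F : Type} [Field F] [NumberField F]

/-- the pairs, with the conditions at all primes of `S` -/
structure XT (g N c : ℕ) (w : Fin (2 * g + 1) → ℤ) (S Z U : Finset ℕ) (𝔮 : ℕ → Ideal (𝓞 F))
    (P : ℕ → (𝓞 F)[X]) (A B : Mt g (𝓞 F)) : Prop where
  box : Box g N c w A B
  con : ∀ q ∈ S, ∀ 𝔭 : Ideal (𝓞 F), 𝔭.IsPrime → (q : 𝓞 F) ∈ 𝔭 → chp (rm 𝔭 A) (rm 𝔭 B) = rd 𝔭 (P q)
  dist : ∀ q ∈ S, q ∈ Z → Dist (rm (𝔮 q) A) (rm (𝔮 q) B)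
  ndist : ∀ q ∈ S, q ∈ U → ¬ Dist (rm (𝔮 q) A) (rm (𝔮 q) B)

/-- the pairs, with the conditions at the primes of `S` which do not divide the determinant -/
structure XTQ (g N c : ℕ) (w : Fin (2 * g + 1) → ℤ) (S Z U : Finset ℕ) (𝔮 : ℕ → Ideal (𝓞 F))
    (P : ℕ → (𝓞 F)[X]) (A B : Mt g (𝓞 F)) : Prop where
  box : Box g N c w A B
  con : ∀ q ∈ S, (∀ 𝔭 : Ideal (𝓞 F), 𝔭.IsPrime → (q : 𝓞 F) ∈ 𝔭 → A.det ∉ 𝔭) →
    ∀ 𝔭 : Ideal (𝓞 F), 𝔭.IsPrime → (q : 𝓞 F) ∈ 𝔭 → chp (rm 𝔭 A) (rm 𝔭 B) = rd 𝔭 (P q)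
  dist : ∀ q ∈ S, q ∈ Z → (∀ 𝔭 : Ideal (𝓞 F), 𝔭.IsPrime → (q : 𝓞 F) ∈ 𝔭 → A.det ∉ 𝔭) →
    Dist (rm (𝔮 q) A) (rm (𝔮 q) B)
  ndist : ∀ q ∈ S, q ∈ U → (∀ 𝔭 : Ideal (𝓞 F), 𝔭.IsPrime → (q : 𝓞 F) ∈ 𝔭 → A.det ∉ 𝔭) →
    ¬ Dist (rm (𝔮 q) A) (rm (𝔮 q) B)

variable {g N c W : ℕ} {w : Fin (2 * g + 1) → ℤ} {S Z U : Finset ℕ} {𝔮 : ℕ → Ideal (𝓞 F)}
  {h P : ℕ → (𝓞 F)[X]} {C₀ : ℕ}

theorem xq_iff {A B : Mt g (𝓞 F)} :
    XTQ g N c w S Z U 𝔮 P A B ↔ XT g N c w (SA S A) Z U 𝔮 P A B := by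
  constructor
  · intro hx
    exact ⟨hx.box, fun q hq => hx.con q (mem_SA.1 hq).1 (mem_SA.1 hq).2,
      fun q hq hz => hx.dist q (mem_SA.1 hq).1 hz (mem_SA.1 hq).2,
      fun q hq hz => hx.ndist q (mem_SA.1 hq).1 hz (mem_SA.1 hq).2⟩
  · intro hx
    exact ⟨hx.box, fun q hq hc => hx.con q (mem_SA.2 ⟨hq, hc⟩),
      fun q hq hz hc => hx.dist q (mem_SA.2 ⟨hq, hc⟩) hz,
      fun q hq hz hc => hx.ndist q (mem_SA.2 ⟨hq, hc⟩) hz⟩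

theorem xt_empty {A B : Mt g (𝓞 F)} (hx : XT g N c w S Z U 𝔮 P A B) : Xset g N c w ∅ 𝔮 P A B :=
  ⟨hx.box, fun q hq => absurd hq (Finset.notMem_empty q), fun q hq => absurd hq (Finset.notMem_empty q)⟩

theorem x_empty {A B : Mt g (𝓞 F)} (hx : XTQ g N c w S Z U 𝔮 P A B) : Xset g N c w ∅ 𝔮 P A B :=
  ⟨hx.box, fun q hq => absurd hq (Finset.notMem_empty q), fun q hq => absurd hq (Finset.notMem_empty q)⟩

theorem lost (hS : GoodS g W S 𝔮 h P) {A : Mt g (𝓞 F)}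
    (hd : ∃ x : 𝓞 F, x ≠ 0 ∧ A.det = (-1) ^ g * x ^ 2 ∧ Ideal.absNorm (Ideal.span {x}) ≤ 2 ^ c) :
    (∏ q ∈ S, mw Z U q) * (∏ q ∈ S, q ^ (2 * g)) ^ Module.finrank ℚ F ≤
      2 ^ (c * (2 * g * Module.finrank ℚ F + 1)) *
      ((∏ q ∈ SA S A, mw Z U q) * (∏ q ∈ SA S A, q ^ (2 * g)) ^ Module.finrank ℚ F) := by
  set d := Module.finrank ℚ F with hdd
  have hsub : SA S A ⊆ S := Finset.filter_subset _ _
  have h1 := prod_bad (c := c) hS hd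
  set Q := ∏ q ∈ S \ SA S A, q with hQ
  have h2 : ∏ q ∈ S \ SA S A, mw Z U q ≤ Q := by
    rw [hQ]
    exact Finset.prod_le_prod' fun q hq =>
      (mw_le Z U q).trans (hS q (Finset.mem_sdiff.1 hq).1).1.two_le
  have h3 : ∏ q ∈ S, mw Z U q = (∏ q ∈ S \ SA S A, mw Z U q) * ∏ q ∈ SA S A, mw Z U q :=
    (Finset.prod_sdiff hsub).symm
  have h4 : ∏ q ∈ S, q ^ (2 * g) = (∏ q ∈ S \ SA S A, q ^ (2 * g)) * ∏ q ∈ SA S A, q ^ (2 * g) :=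
    (Finset.prod_sdiff hsub).symm
  have h5 : (∏ q ∈ S \ SA S A, q ^ (2 * g)) = Q ^ (2 * g) := by
    rw [hQ, Finset.prod_pow]
  rw [h3, h4, h5, mul_pow]
  have h6 : (∏ q ∈ S \ SA S A, mw Z U q) * (Q ^ (2 * g)) ^ d ≤ 2 ^ (c * (2 * g * d + 1)) := by
    calc (∏ q ∈ S \ SA S A, mw Z U q) * (Q ^ (2 * g)) ^ d ≤ 2 ^ c * ((2 ^ c) ^ (2 * g)) ^ d := by
          apply Nat.mul_le_mul (h2.trans h1)
          exact Nat.pow_le_pow_left (Nat.pow_le_pow_left h1 _) _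
      _ = 2 ^ (c * (2 * g * d + 1)) := by
          rw [← pow_mul, ← pow_mul, ← pow_add]
          congr 1
          ring
  calc (∏ q ∈ S \ SA S A, mw Z U q) * (∏ q ∈ SA S A, mw Z U q) *
        ((Q ^ (2 * g)) ^ d * (∏ q ∈ SA S A, q ^ (2 * g)) ^ d)
      = ((∏ q ∈ S \ SA S A, mw Z U q) * (Q ^ (2 * g)) ^ d) *
          ((∏ q ∈ SA S A, mw Z U q) * (∏ q ∈ SA S A, q ^ (2 * g)) ^ d) := by ring
    _ ≤ _ := Nat.mul_le_mul_right _ h6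

/-! ### The bounds modulo a prime, if the determinant is prime to `q` -/

/-- the reductions of `B` -/
abbrev GT (g : ℕ) (𝔮 : ℕ → Ideal (𝓞 F)) (P : ℕ → (𝓞 F)[X]) (Z U : Finset ℕ) (A : Mt g (𝓞 F)) (q : ℕ)
    (𝔭 : Ideal (𝓞 F)) : Type :=
  {B : Mt g (𝓞 F ⧸ 𝔭) // B.IsSymm ∧ chp (rm 𝔭 A) B = rd 𝔭 (P q) ∧
    (𝔭 = 𝔮 q → (q ∈ Z → Dist (rm 𝔭 A) B) ∧ (q ∈ U → ¬ Dist (rm 𝔭 A) B))}

lemma card_GT (h2 : S_CQA) (h7 : CQNg g) (h3 : S_CQB) (hg : 1 ≤ g)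
    (hS : GoodS g W S 𝔮 h P) {A : Mt g (𝓞 F)} (hA : A.IsSymm)
    (hd : ∃ x : 𝓞 F, x ≠ 0 ∧ A.det = (-1) ^ g * x ^ 2)
    {q : ℕ} (hq : q ∈ S) (hcop : Cop A q) {𝔭 : Ideal (𝓞 F)} (h𝔭 : 𝔭 ∈ PP F q) :
    (if 𝔭 = 𝔮 q then mw Z U q else 1) * Nat.card (GT g 𝔮 P Z U A q 𝔭) ≤
      Ideal.absNorm 𝔭 ^ (g * (2 * g + 1)) := by
  obtain ⟨hp, hWq, _, h8, hram, hqp, hqm, hm, hdeg, hirr, hPm, hPd, hPt, hcg, hPi⟩ := hS q hq
  rw [mem_PP hp.ne_zero] at h𝔭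
  haveI : 𝔭.IsPrime := h𝔭.1
  have hb : 𝔭 ≠ ⊥ := ne_bot hp.ne_zero h𝔭.2
  haveI : 𝔭.IsMaximal := Ideal.IsPrime.isMaximal inferInstance hb
  haveI : Finite (𝓞 F ⧸ 𝔭) := finq hb
  have hcard : Ideal.absNorm 𝔭 = Nat.card (𝓞 F ⧸ 𝔭) := by
    rw [Ideal.absNorm_apply, Submodule.cardQuot_apply]
  have h2q : (2 : 𝓞 F ⧸ 𝔭) ≠ 0 := by
    intro h0
    have h1 : Ideal.Quotient.mk 𝔭 ((2 : ℕ) : 𝓞 F) = 0 := by
      rw [map_natCast]
      exact_mod_cast h0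
    rw [Ideal.Quotient.eq_zero_iff_mem] at h1
    exact not_mem hp h𝔭.1 h𝔭.2 (by norm_num) (by
      have := hp.two_le
      omega) h1
  obtain ⟨x, hx0, hdet⟩ := hd
  have hx : Ideal.Quotient.mk 𝔭 x ≠ 0 := by
    intro h0
    rw [Ideal.Quotient.eq_zero_iff_mem] at h0
    apply hcop 𝔭 h𝔭.1 h𝔭.2
    rw [hdet, pow_two]
    exact 𝔭.mul_mem_left _ (𝔭.mul_mem_left _ h0)
  have hdet' : (rm 𝔭 A).det = (-1) ^ g * (Ideal.Quotient.mk 𝔭 x) ^ 2 := by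
    have h1 : (rm 𝔭 A).det = Ideal.Quotient.mk 𝔭 A.det := (RingHom.map_det _ _).symm
    rw [h1, hdet, map_mul, map_pow, map_pow, map_neg, map_one]
  letI : Field (𝓞 F ⧸ 𝔭) := Ideal.Quotient.field 𝔭
  rw [hcard]
  by_cases hc : 𝔭 = 𝔮 q
  · rw [if_pos hc]
    have hirr' : Irreducible (rd 𝔭 (h q)) := by
      rw [hc]
      exact hirr
    have e1 : rd 𝔭 (P q) = X * rd 𝔭 (h q) := by
      have e2 : (X : (𝓞 F ⧸ 𝔭)[X]) * rd 𝔭 (h q) = rd 𝔭 (X * h q) := by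
        rw [rd, rd, Polynomial.map_mul, map_X]
      rw [e2]
      ext j
      rw [coeff_map, coeff_map, ← sub_eq_zero, ← map_sub, Ideal.Quotient.eq_zero_iff_mem, hc]
      exact hcg j
    have e3 := h2 g (𝓞 F ⧸ 𝔭) hg h2q (rd 𝔭 (h q)) (hm.map _) hirr'
      (by rw [hm.natDegree_map, hdeg]) (rm 𝔭 A) (hA.map _) ⟨_, hx, hdet'⟩
    have e4 := h7 (𝓞 F ⧸ 𝔭) h2q (rd 𝔭 (h q)) (hm.map _) hirr'
      (by rw [hm.natDegree_map, hdeg]) (rm 𝔭 A) (hA.map _) ⟨_, hx, hdet'⟩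
    by_cases hZ : q ∈ Z
    · refine le_trans (Nat.mul_le_mul (mw_le Z U q) ?_) e3
      refine Nat.card_le_card_of_injective
        (fun B : GT g 𝔮 P Z U A q 𝔭 => (⟨B.1, B.2.1, by rw [← e1]; exact B.2.2.1, (B.2.2.2 hc).1 hZ⟩ :
          {B : Mt g (𝓞 F ⧸ 𝔭) // B.IsSymm ∧ chp (rm 𝔭 A) B = X * rd 𝔭 (h q) ∧ Dist (rm 𝔭 A) B}))
        ?_
      intro B B' hBB
      have h9 := Subtype.ext_iff.1 hBB
      exact Subtype.ext h9
    · by_cases hU : q ∈ U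
      · refine le_trans (Nat.mul_le_mul (mw_le Z U q) ?_) e4
        refine Nat.card_le_card_of_injective
          (fun B : GT g 𝔮 P Z U A q 𝔭 => (⟨B.1, B.2.1, by rw [← e1]; exact B.2.2.1,
            (B.2.2.2 hc).2 hU⟩ :
            {B : Mt g (𝓞 F ⧸ 𝔭) // B.IsSymm ∧ chp (rm 𝔭 A) B = X * rd 𝔭 (h q) ∧
              ¬ Dist (rm 𝔭 A) B}))
          ?_
        intro B B' hBB
        have h9 := Subtype.ext_iff.1 hBB
        exact Subtype.ext h9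
      · have e5 : mw Z U q = 1 := by
          unfold mw
          rw [if_neg]
          rintro (h9 | h9)
          · exact hZ h9
          · exact hU h9
        rw [e5, one_mul]
        have e6 : Nat.card (GT g 𝔮 P Z U A q 𝔭) ≤
            Nat.card ({B : Mt g (𝓞 F ⧸ 𝔭) // B.IsSymm ∧ chp (rm 𝔭 A) B = X * rd 𝔭 (h q) ∧
              Dist (rm 𝔭 A) B} ⊕ {B : Mt g (𝓞 F ⧸ 𝔭) // B.IsSymm ∧ chp (rm 𝔭 A) B = X * rd 𝔭 (h q) ∧
              ¬ Dist (rm 𝔭 A) B}) := by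
          refine Nat.card_le_card_of_injective
            (fun B : GT g 𝔮 P Z U A q 𝔭 => if hD : Dist (rm 𝔭 A) B.1 then
              Sum.inl ⟨B.1, B.2.1, by rw [← e1]; exact B.2.2.1, hD⟩
              else Sum.inr ⟨B.1, B.2.1, by rw [← e1]; exact B.2.2.1, hD⟩) ?_
          intro B B' hBB
          dsimp only at hBB
          split_ifs at hBB with hD hD'
          · have h9 := Subtype.ext_iff.1 (Sum.inl.inj hBB)
            exact Subtype.ext h9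
          · have h9 := Subtype.ext_iff.1 (Sum.inr.inj hBB)
            exact Subtype.ext h9
        rw [Nat.card_sum] at e6
        omega
  · rw [if_neg hc, one_mul]
    have e3 := h3 g (𝓞 F ⧸ 𝔭) hg h2q (rd 𝔭 (P q)) (hPm.map _) (hPi 𝔭 h𝔭.1 h𝔭.2 hc)
      (by rw [hPm.natDegree_map, hPd]) (rm 𝔭 A) (hA.map _) ⟨_, hx, hdet'⟩
    refine le_trans ?_ e3
    refine Nat.card_le_card_of_injective
      (fun B : GT g 𝔮 P Z U A q 𝔭 => (⟨B.1, B.2.1, B.2.2.1⟩ :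
        {B : Mt g (𝓞 F ⧸ 𝔭) // B.IsSymm ∧ chp (rm 𝔭 A) B = rd 𝔭 (P q)}))
      ?_
    intro B B' hBB
    have h9 := Subtype.ext_iff.1 hBB
    exact Subtype.ext h9

lemma card_q' (h2 : S_CQA) (h7 : CQNg g) (h3 : S_CQB) (hg : 1 ≤ g)
    (hS : GoodS g W S 𝔮 h P) {A : Mt g (𝓞 F)} (hA : A.IsSymm)
    (hd : ∃ x : 𝓞 F, x ≠ 0 ∧ A.det = (-1) ^ g * x ^ 2)
    {q : ℕ} (hq : q ∈ S) (hcop : Cop A q) :
    mw Z U q * ∏ 𝔭 ∈ PP F q, Nat.card (GT g 𝔮 P Z U A q 𝔭) ≤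
      (q ^ (g * (2 * g + 1))) ^ Module.finrank ℚ F := by
  obtain ⟨hp, hWq, _, h8, hram, hqp, hqm, _⟩ := hS q hq
  have h1 : ∏ 𝔭 ∈ PP F q, (if 𝔭 = 𝔮 q then mw Z U q else 1) = mw Z U q := by
    rw [Finset.prod_ite_eq' (PP F q) (𝔮 q) (fun _ => mw Z U q), if_pos]
    rw [mem_PP hp.ne_zero]
    exact ⟨hqp, hqm⟩
  calc mw Z U q * ∏ 𝔭 ∈ PP F q, Nat.card (GT g 𝔮 P Z U A q 𝔭)
      = ∏ 𝔭 ∈ PP F q, ((if 𝔭 = 𝔮 q then mw Z U q else 1) * Nat.card (GT g 𝔮 P Z U A q 𝔭)) := by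
        rw [Finset.prod_mul_distrib, h1]
    _ ≤ ∏ 𝔭 ∈ PP F q, Ideal.absNorm 𝔭 ^ (g * (2 * g + 1)) :=
        Finset.prod_le_prod' fun 𝔭 h𝔭 => card_GT h2 h7 h3 hg hS hA hd hq hcop h𝔭
    _ = (∏ 𝔭 ∈ PP F q, Ideal.absNorm 𝔭) ^ (g * (2 * g + 1)) := Finset.prod_pow _ _ _
    _ ≤ (q ^ Module.finrank ℚ F) ^ (g * (2 * g + 1)) :=
        Nat.pow_le_pow_left (prod_PP hp.ne_zero) _
    _ = _ := by rw [← pow_mul, ← pow_mul, mul_comm]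

/-! ### The bound with congruences -/

lemma fiber' (hC : Cst F C₀) (h2 : S_CQA) (h7 : CQNg g) (h3 : S_CQB) (hg : 1 ≤ g)
    (hS : GoodS g W S 𝔮 h P) (hw : Typ g w)
    (hQ : ((∏ q ∈ S, q : ℕ) : ℝ) ≤ (2 : ℝ) ^ (2 * (N : ℤ) + 2 * w 0)) (A : Mt g (𝓞 F))
    (hcop : ∀ q ∈ S, Cop A q) :
    (∏ q ∈ S, mw Z U q) * (∏ q ∈ S, q ^ (2 * g)) ^ Module.finrank ℚ F *
        {B : Mt g (𝓞 F) | XT g N c w S Z U 𝔮 P A B}.ncard ≤
      C₀ ^ dd g * 2 ^ (Module.finrank ℚ F * (2 * N * dd g)) := by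
  set d := Module.finrank ℚ F with hd
  rcases Set.eq_empty_or_nonempty {B : Mt g (𝓞 F) | XT g N c w S Z U 𝔮 P A B} with he | ⟨B0, hB0⟩
  · rw [he, Set.ncard_empty, mul_zero]
    exact Nat.zero_le _
  have hB0' : XT g N c w S Z U 𝔮 P A B0 := hB0
  have hAs := hB0'.box.sA
  have hAd := det_ne (xt_empty hB0')
  have hAx : ∃ x : 𝓞 F, x ≠ 0 ∧ A.det = (-1) ^ g * x ^ 2 := by
    obtain ⟨x, hx1, hx2, -⟩ := hB0'.box.det
    exact ⟨x, hx1, hx2⟩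
  obtain ⟨p0, hp0, h0, hp0w⟩ := exists_p0 hw hAs hAd
  set Q : ℕ := ∏ q ∈ S, q with hQdef
  have hQ1 : 1 ≤ Q := Finset.prod_pos (fun q hq => (hS q hq).1.pos)
  have hw0 : ∀ i, w 0 ≤ w i := fun i => hw.mono (Fin.zero_le i)
  have hE : 0 ≤ 2 * (N : ℤ) + 2 * w 0 := by
    by_contra hcon
    push Not at hcon
    have h1 : (2 : ℝ) ^ (2 * (N : ℤ) + 2 * w 0) < 1 := zpow_lt_one_of_neg₀ (by norm_num) hcon
    have h2 : (1 : ℝ) ≤ (Q : ℝ) := by exact_mod_cast hQ1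
    linarith
  have hQ2 : Q ≤ 2 ^ (2 * (N : ℤ) + 2 * w 0).toNat := by
    have h1 : (2 : ℝ) ^ (2 * (N : ℤ) + 2 * w 0) =
        ((2 ^ (2 * (N : ℤ) + 2 * w 0).toNat : ℕ) : ℝ) := by
      push_cast
      rw [← zpow_natCast, Int.toNat_of_nonneg hE]
    rw [h1] at hQ
    exact_mod_cast hQ
  set ez : Fin (2 * g + 1) × Fin (2 * g + 1) → ℤ :=
    fun p => 2 * (N : ℤ) + w p.1 + w p.2 with hez
  have hez0 : ∀ p, 0 ≤ ez p := fun p => by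
    have h1 := hw0 p.1
    have h2 := hw0 p.2
    show 0 ≤ 2 * (N : ℤ) + w p.1 + w p.2
    omega
  have hQe : ∀ p, Q ≤ 2 ^ (ez p).toNat := fun p => hQ2.trans (Nat.pow_le_pow_right (by norm_num) (by
    have h1 := hw0 p.1
    have h2 := hw0 p.2
    show (2 * (N : ℤ) + 2 * w 0).toNat ≤ (2 * (N : ℤ) + w p.1 + w p.2).toNat
    omega))
  -- the classes
  let T := ∀ q : {q // q ∈ S}, ∀ 𝔭 : {𝔭 // 𝔭 ∈ PP F q.1}, GT g 𝔮 P Z U A q.1 𝔭.1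
  haveI hfinGP : ∀ (q : {q // q ∈ S}) (𝔭 : {𝔭 // 𝔭 ∈ PP F q.1}), Finite (GT g 𝔮 P Z U A q.1 𝔭.1) := by
    intro q 𝔭
    have h5 := (mem_PP (hS q.1 q.2).1.ne_zero).1 𝔭.2
    haveI : Finite (𝓞 F ⧸ 𝔭.1) := finq (ne_bot (hS q.1 q.2).1.ne_zero h5.2)
    infer_instance
  haveI : Finite T := inferInstance
  let f : {B : Mt g (𝓞 F) | XT g N c w S Z U 𝔮 P A B} → T := fun B q 𝔭 =>
    ⟨rm 𝔭.1 B.1, B.2.box.sB.map _,
      B.2.con q.1 q.2 𝔭.1 ((mem_PP (hS q.1 q.2).1.ne_zero).1 𝔭.2).1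
        ((mem_PP (hS q.1 q.2).1.ne_zero).1 𝔭.2).2,
      fun hc => by
        rw [hc]
        exact ⟨fun hz => B.2.dist q.1 q.2 hz, fun hu => B.2.ndist q.1 q.2 hu⟩⟩
  have hfinB : Finite {B : Mt g (𝓞 F) | XT g N c w S Z U 𝔮 P A B} := by
    have h5 : {B : Mt g (𝓞 F) | XT g N c w S Z U 𝔮 P A B}.Finite := by
      apply Set.Finite.subset ((fin_pairs (g := g) (N := N) (c := c) (w := w) (S := ∅) (𝔮 := 𝔮)
        (P := P) hC).image Prod.snd)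
      intro B hB
      exact ⟨(A, B), xt_empty hB, rfl⟩
    exact h5.to_subtype
  have hfib : ∀ b : T, (Q ^ d) ^ dd g * Nat.card {B // f B = b} ≤
      C₀ ^ dd g * 2 ^ (d * ∑ p ∈ (P2 g).erase p0, (ez p).toNat) := by
    intro b
    rcases isEmpty_or_nonempty {B // f B = b} with hemp | ⟨⟨⟨B1, hB1⟩, hb1⟩⟩
    · rw [Nat.card_of_isEmpty, mul_zero]
      exact Nat.zero_le _
    let U := ∀ p : {p // p ∈ (P2 g).erase p0},
      {a : 𝓞 F // a - B1 p.1.1 p.1.2 ∈ sp F Q ∧ Bd (a : F) ((2 : ℝ) ^ ez p.1)}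
    haveI : ∀ p : {p // p ∈ (P2 g).erase p0},
      Finite {a : 𝓞 F // a - B1 p.1.1 p.1.2 ∈ sp F Q ∧ Bd (a : F) ((2 : ℝ) ^ ez p.1)} :=
      fun p => hC.clf _ _ _ hQ1
    have hcls : ∀ B : {B // f B = b}, ∀ i j, B.1.1 i j - B1 i j ∈ sp F Q := by
      rintro ⟨⟨B, hB⟩, hb⟩ i j
      apply crt (fun q hq => (hS q hq).1)
      intro q hq
      apply mem_sp (hS q hq).1.ne_zero (hS q hq).2.2.2.2.1
      intro 𝔭 h𝔭 hq𝔭
      have h5 : rm 𝔭 B = rm 𝔭 B1 := by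
        have h6 : f ⟨B, hB⟩ = f ⟨B1, hB1⟩ := hb.trans hb1.symm
        exact congrArg (fun t : T => (t ⟨q, hq⟩ ⟨𝔭, (mem_PP (hS q hq).1.ne_zero).2 ⟨h𝔭, hq𝔭⟩⟩).1) h6
      have h7 := congrFun (congrFun h5 i) j
      rw [← Ideal.Quotient.eq_zero_iff_mem, map_sub, sub_eq_zero]
      exact h7
    let Ψ : {B // f B = b} → U := fun B p =>
      ⟨B.1.1 p.1.1 p.1.2, hcls B _ _, B.1.2.box.bB _ _⟩
    have hΨ : Function.Injective Ψ := by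
      rintro ⟨⟨B, hB⟩, hb⟩ ⟨⟨B', hB'⟩, hb'⟩ heq
      apply Subtype.ext
      apply Subtype.ext
      change B = B'
      refine fiber_inj hAs hp0 h0 (xt_empty hB) (xt_empty hB') fun p hp => ?_
      exact congrArg (fun t : U => ((t ⟨p, hp⟩).1 : 𝓞 F)) heq
    have h5 := Nat.card_le_card_of_injective Ψ hΨ
    refine (Nat.mul_le_mul_left _ h5).trans ?_
    rw [Nat.card_pi, Finset.prod_coe_sort ((P2 g).erase p0)
      (fun p => Nat.card {a : 𝓞 F // a - B1 p.1 p.2 ∈ sp F Q ∧ Bd (a : F) ((2 : ℝ) ^ ez p)}),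
      Finset.mul_sum, ← Finset.prod_pow_eq_pow_sum, ← card_erase hp0, ← Finset.prod_const,
      ← Finset.prod_const, ← Finset.prod_mul_distrib, ← Finset.prod_mul_distrib]
    exact Finset.prod_le_prod' fun p _ => hC.cls _ _ _ hQ1 (hez0 p) (hQe p)
  have h1 := card_fib f hfib
  rw [Nat.card_coe_set_eq] at h1
  have hT : Nat.card T = ∏ q ∈ S, ∏ 𝔭 ∈ PP F q, Nat.card (GT g 𝔮 P Z U A q 𝔭) := by
    rw [Nat.card_pi, ← Finset.prod_coe_sort S]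
    refine Finset.prod_congr rfl fun q _ => ?_
    rw [Nat.card_pi, ← Finset.prod_coe_sort (PP F q.1)]
  have h4 : (∏ q ∈ S, mw Z U q) * Nat.card T ≤ (Q ^ (g * (2 * g + 1))) ^ d := by
    rw [hT, ← Finset.prod_mul_distrib, hQdef, ← Finset.prod_pow, ← Finset.prod_pow]
    exact Finset.prod_le_prod' fun q hq => card_q' h2 h7 h3 hg hS hAs hAx hq (hcop q hq)
  have h5 : ∑ p ∈ (P2 g).erase p0, (ez p).toNat ≤ 2 * N * dd g := by
    have e0 := Finset.sum_erase_add (P2 g) (fun p => (ez p).toNat) hp0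
    have e1 : ∀ p, (((ez p).toNat : ℕ) : ℤ) = 2 * N + (w p.1 + w p.2) := by
      intro p
      have h1 := hw0 p.1
      have h2 := hw0 p.2
      show (((2 * (N : ℤ) + w p.1 + w p.2).toNat : ℕ) : ℤ) = _
      omega
    have e2 : ((∑ p ∈ P2 g, (ez p).toNat : ℕ) : ℤ) = 2 * N * (dd g + 1) := by
      rw [Nat.cast_sum, Finset.sum_congr rfl fun p _ => e1 p, Finset.sum_add_distrib, sum_P2 hw,
        Finset.sum_const, card_P2, nsmul_eq_mul, add_zero]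
      push_cast
      ring
    have e3 := e1 p0
    have e4 : ((∑ p ∈ (P2 g).erase p0, (ez p).toNat : ℕ) : ℤ) ≤ ((2 * N * dd g : ℕ) : ℤ) := by
      have e5 : ((∑ p ∈ (P2 g).erase p0, (ez p).toNat : ℕ) : ℤ) + (((ez p0).toNat : ℕ) : ℤ) =
          2 * N * (dd g + 1) := by
        rw [← e2, ← e0]
        push_cast
        ring
      push_cast at e5 ⊢
      push_cast at e3
      linarith
    exact_mod_cast e4
  have hQd : 0 < (Q ^ (g * (2 * g + 1))) ^ d := by positivity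
  refine Nat.le_of_mul_le_mul_left ?_ hQd
  set n := {B : Mt g (𝓞 F) | XT g N c w S Z U 𝔮 P A B}.ncard with hn
  calc (Q ^ (g * (2 * g + 1))) ^ d * ((∏ q ∈ S, mw Z U q) * (∏ q ∈ S, q ^ (2 * g)) ^ d * n)
      = (∏ q ∈ S, mw Z U q) * ((Q ^ d) ^ dd g * n) := by
        rw [Finset.prod_pow, ← hQdef]
        have e1 : (Q ^ d) ^ dd g = (Q ^ (g * (2 * g + 1))) ^ d * (Q ^ (2 * g)) ^ d := by
          rw [← mul_pow, ← pow_add, ← pow_mul, ← pow_mul]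
          congr 1
          unfold dd
          ring
        rw [e1]
        ring
    _ ≤ (∏ q ∈ S, mw Z U q) * (Nat.card T * (C₀ ^ dd g * 2 ^ (d * ∑ p ∈ (P2 g).erase p0, (ez p).toNat))) :=
        Nat.mul_le_mul_left _ h1
    _ = ((∏ q ∈ S, mw Z U q) * Nat.card T) *
          (C₀ ^ dd g * 2 ^ (d * ∑ p ∈ (P2 g).erase p0, (ez p).toNat)) := by ring
    _ ≤ (Q ^ (g * (2 * g + 1))) ^ d *
          (C₀ ^ dd g * 2 ^ (d * ∑ p ∈ (P2 g).erase p0, (ez p).toNat)) :=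
        Nat.mul_le_mul_right _ h4
    _ ≤ _ := Nat.mul_le_mul_left _ (Nat.mul_le_mul_left _ (Nat.pow_le_pow_right (by norm_num)
        (Nat.mul_le_mul_left _ h5)))

/-- the bound for the fibres of `XsetQ` -/
lemma fiberQ (hC : Cst F C₀) (h2 : S_CQA) (h7 : CQNg g) (h3 : S_CQB) (hg : 1 ≤ g)
    (hS : GoodS g W S 𝔮 h P) (hw : Typ g w)
    (hQ : ((∏ q ∈ S, q : ℕ) : ℝ) ≤ (2 : ℝ) ^ (2 * (N : ℤ) + 2 * w 0)) (A : Mt g (𝓞 F)) :
    (∏ q ∈ S, mw Z U q) * (∏ q ∈ S, q ^ (2 * g)) ^ Module.finrank ℚ F *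
        {B : Mt g (𝓞 F) | XTQ g N c w S Z U 𝔮 P A B}.ncard ≤
      2 ^ (c * (2 * g * Module.finrank ℚ F + 1)) *
        (C₀ ^ dd g * 2 ^ (Module.finrank ℚ F * (2 * N * dd g))) := by
  rcases Set.eq_empty_or_nonempty {B : Mt g (𝓞 F) | XTQ g N c w S Z U 𝔮 P A B} with he | ⟨B0, hB0⟩
  · rw [he, Set.ncard_empty, mul_zero]
    exact Nat.zero_le _
  have hB0' : XTQ g N c w S Z U 𝔮 P A B0 := hB0
  have h4 : {B : Mt g (𝓞 F) | XTQ g N c w S Z U 𝔮 P A B} =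
      {B : Mt g (𝓞 F) | XT g N c w (SA S A) Z U 𝔮 P A B} := by
    ext B
    exact xq_iff
  have hsub : SA S A ⊆ S := Finset.filter_subset _ _
  have hQ' : ((∏ q ∈ SA S A, q : ℕ) : ℝ) ≤ (2 : ℝ) ^ (2 * (N : ℤ) + 2 * w 0) := by
    refine le_trans ?_ hQ
    exact_mod_cast Finset.prod_le_prod_of_subset_of_one_le' hsub
      (fun q hq _ => (hS q hq).1.one_le)
  have h5 := fiber' (c := c) (Z := Z) (U := U) hC h2 h7 h3 hg (good_sub hS hsub) hw hQ' A (fun q hq => (mem_SA.1 hq).2)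
  rw [h4]
  calc (∏ q ∈ S, mw Z U q) * (∏ q ∈ S, q ^ (2 * g)) ^ Module.finrank ℚ F *
        {B : Mt g (𝓞 F) | XT g N c w (SA S A) Z U 𝔮 P A B}.ncard
      ≤ 2 ^ (c * (2 * g * Module.finrank ℚ F + 1)) *
      ((∏ q ∈ SA S A, mw Z U q) * (∏ q ∈ SA S A, q ^ (2 * g)) ^ Module.finrank ℚ F) *
        {B : Mt g (𝓞 F) | XT g N c w (SA S A) Z U 𝔮 P A B}.ncard :=
        Nat.mul_le_mul_right _ (lost hS hB0'.box.det)
    _ = 2 ^ (c * (2 * g * Module.finrank ℚ F + 1)) *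
      ((∏ q ∈ SA S A, mw Z U q) * (∏ q ∈ SA S A, q ^ (2 * g)) ^ Module.finrank ℚ F *
        {B : Mt g (𝓞 F) | XT g N c w (SA S A) Z U 𝔮 P A B}.ncard) := by ring
    _ ≤ _ := Nat.mul_le_mul_left _ h5

/-- finiteness -/
lemma finQ (hC : Cst F C₀) :
    {p : Mt g (𝓞 F) × Mt g (𝓞 F) | XTQ g N c w S Z U 𝔮 P p.1 p.2}.Finite :=
  (fin_pairs (g := g) (N := N) (c := c) (w := w) (S := ∅) (𝔮 := 𝔮) (P := P) hC).subset
    fun p hp => x_empty hp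

/-- from the fibres to the pairs -/
lemma assembleQ (hC : Cst F C₀) {K M : ℕ}
    (hf : ∀ A : Mt g (𝓞 F), K * {B : Mt g (𝓞 F) | XTQ g N c w S Z U 𝔮 P A B}.ncard ≤ M) :
    K * {p : Mt g (𝓞 F) × Mt g (𝓞 F) | XTQ g N c w S Z U 𝔮 P p.1 p.2}.ncard ≤
      M * (C₀ ^ (dd g + 1) * 2 ^ (Module.finrank ℚ F * c * (dd g + 1)) *
        2 ^ (Module.finrank ℚ F * eA g w)) := by
  have hfin := finQ (g := g) (N := N) (c := c) (w := w) (S := S) (Z := Z) (U := U) (𝔮 := 𝔮) (P := P) hC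
  set s := hfin.toFinset with hs
  rw [Set.ncard_eq_toFinset_card _ hfin, ← hs, Finset.card_eq_sum_card_image Prod.fst s,
    Finset.mul_sum]
  have h1 : ∀ A ∈ s.image Prod.fst, K * (s.filter (fun p => p.1 = A)).card ≤ M := by
    intro A hA
    refine le_trans (Nat.mul_le_mul_left _ ?_) (hf A)
    have hfinA : {B : Mt g (𝓞 F) | XTQ g N c w S Z U 𝔮 P A B}.Finite := by
      apply Set.Finite.subset (hfin.image Prod.snd)
      intro B hB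
      exact ⟨(A, B), hB, rfl⟩
    rw [Set.ncard_eq_toFinset_card _ hfinA]
    apply Finset.card_le_card_of_injOn Prod.snd
    · intro p hp
      rw [Finset.mem_coe, Finset.mem_filter, hs, Set.Finite.mem_toFinset] at hp
      rw [Finset.mem_coe, Set.Finite.mem_toFinset]
      have := hp.1
      rw [← hp.2]
      exact hp.1
    · intro p hp p' hp' heq
      rw [Finset.mem_coe, Finset.mem_filter] at hp hp'
      exact Prod.ext (hp.2.trans hp'.2.symm) heq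
  refine (Finset.sum_le_sum h1).trans ?_
  rw [Finset.sum_const, smul_eq_mul, mul_comm]
  apply Nat.mul_le_mul_left
  apply card_A (N := N) (c := c) (S := ∅) (𝔮 := 𝔮) (P := P) hC
  intro A hA
  rw [Finset.mem_image] at hA
  obtain ⟨p, hp, rfl⟩ := hA
  rw [hs, Set.Finite.mem_toFinset] at hp
  exact ⟨p.2, x_empty hp⟩

/-- the bound with congruences -/
lemma pbQ (hC : Cst F C₀) (h2 : S_CQA) (h7 : CQNg g) (h3 : S_CQB) (hg : 1 ≤ g)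
    (hS : GoodS g W S 𝔮 h P) (hw : Typ g w)
    (hQ : ((∏ q ∈ S, q : ℕ) : ℝ) ≤ (2 : ℝ) ^ (2 * (N : ℤ) + 2 * w 0)) :
    (∏ q ∈ S, mw Z U q) * (∏ q ∈ S, q ^ (2 * g)) ^ Module.finrank ℚ F *
      {p : Mt g (𝓞 F) × Mt g (𝓞 F) | XTQ g N c w S Z U 𝔮 P p.1 p.2}.ncard ≤
    (C₀ ^ (2 * dd g + 1) * 2 ^ (c * (2 * g * Module.finrank ℚ F + 1 +
      Module.finrank ℚ F * (dd g + 1)))) *
      2 ^ (Module.finrank ℚ F * (eA g w + 2 * N * dd g)) := by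
  refine (assembleQ hC (fun A => fiberQ hC h2 h7 h3 hg hS hw hQ A)).trans (le_of_eq ?_)
  rw [mul_add (Module.finrank ℚ F) (eA g w), pow_add 2 (Module.finrank ℚ F * eA g w), mul_add c,
    pow_add 2 (c * _), show 2 * dd g + 1 = dd g + (dd g + 1) by ring, pow_add C₀ (dd g),
    show Module.finrank ℚ F * c * (dd g + 1) = c * (Module.finrank ℚ F * (dd g + 1)) by ring]
  ring

/-- the trivial bound -/
lemma pb0Q (hC : Cst F C₀) (hw : Typ g w) :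
    2 ^ (Module.finrank ℚ F * (2 * N)) *
      {p : Mt g (𝓞 F) × Mt g (𝓞 F) | XTQ g N c w S Z U 𝔮 P p.1 p.2}.ncard ≤
    (C₀ ^ (2 * dd g + 1) * 2 ^ (c * (Module.finrank ℚ F * (dd g + 1)))) *
      2 ^ (Module.finrank ℚ F * (eA g w + eB g N w)) := by
  have h1 : {p : Mt g (𝓞 F) × Mt g (𝓞 F) | XTQ g N c w S Z U 𝔮 P p.1 p.2}.ncard ≤
      {p : Mt g (𝓞 F) × Mt g (𝓞 F) | Xset g N c w ∅ 𝔮 P p.1 p.2}.ncard :=
    Set.ncard_le_ncard (fun p hp => x_empty hp) (fin_pairs hC)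
  refine (Nat.mul_le_mul_left _ h1).trans ?_
  refine (assemble hC (fun A => fiber0 hC hw A)).trans (le_of_eq ?_)
  rw [mul_add (Module.finrank ℚ F) (eA g w), pow_add 2 (Module.finrank ℚ F * eA g w),
    show 2 * dd g + 1 = dd g + (dd g + 1) by ring, pow_add C₀ (dd g),
    show Module.finrank ℚ F * c * (dd g + 1) = c * (Module.finrank ℚ F * (dd g + 1)) by ring]
  ring

end fld

end Pool.Agent.H33PR
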