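import Pool.Agent.N999.PF.Orb
import Pool.Agent.H33PR.Badt1

/-!
# Project PR, part BADT: orbits of the unipotent group on pairs (after `H93PR/Badq2.lean`)
-/

set_option autoImplicit false
set_option linter.all false

open Polynomial Matrix NumberField
open scoped Classical

namespace Pool.Agent.H33PR

open Pool.Agent.N783.PF
open Pool.Agent.N783.PQ (chp form Dist eU)
open Pool.Agent.N352.PJ (Mt Typ)
open Pool.Agent.N530.PQ (op_act chp_act symm_act form_act Ix mem_ix)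
open Pool.Agent.N999.PF (Uni Par mat mat_uni mat_inj card_par X_act map_act map_unit free dist_act)
open Pool.Agent.H93PR (SA_act)

theorem dist_back {g : ℕ} {R : Type} [CommRing R] {A B V : Mt g R} (hV : IsUnit V.det)
    (h : Dist (Vᵀ * A * V) (Vᵀ * B * V)) : Dist A B := by
  have hV' : IsUnit (V⁻¹).det := by
    rw [Matrix.det_nonsing_inv]
    exact hV.ringInverse
  have h1 := dist_act hV' h
  have e : ∀ C : Mt g R, (V⁻¹)ᵀ * (Vᵀ * C * V) * V⁻¹ = C := by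
    intro C
    have h2 : (V⁻¹)ᵀ * Vᵀ = 1 := by
      rw [← Matrix.transpose_mul, Matrix.mul_nonsing_inv _ hV, Matrix.transpose_one]
    calc (V⁻¹)ᵀ * (Vᵀ * C * V) * V⁻¹ = ((V⁻¹)ᵀ * Vᵀ) * C * (V * V⁻¹) := by
          simp only [Matrix.mul_assoc]
      _ = C := by rw [h2, Matrix.mul_nonsing_inv _ hV, Matrix.one_mul, Matrix.mul_one]
  rwa [e, e] at h1

variable {F : Type} [Field F] [NumberField F] {g : ℕ}

theorem XT_act {κ : ℕ} (hκ : (2 * g + 1) ^ 2 ≤ 2 ^ κ) {c : ℕ} {S Z U : Finset ℕ}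
    {𝔮 : ℕ → Ideal (𝓞 F)} {P : ℕ → (𝓞 F)[X]} {N : ℕ}
    {w : Fin (2 * g + 1) → ℤ} {A B V : Mt g (𝓞 F)} (hX : XT g N c w S Z U 𝔮 P A B) (hV : Uni w V) :
    XT g (N + κ) (c + κ) w S Z U 𝔮 P (Vᵀ * A * V) (Vᵀ * B * V) where
  box := (X_act hκ (xt_empty hX) hV).box
  con := fun q hq 𝔭 h1 h2 => by
    have h3 := hX.con q hq 𝔭 h1 h2
    rw [← h3, rm, rm, map_act, map_act, chp_act (map_unit _ hV.det)]
  dist := fun q hq hz => by
    rw [rm, rm, map_act, map_act]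
    exact dist_act (map_unit _ hV.det) (hX.dist q hq hz)
  ndist := fun q hq hu hD => by
    rw [rm, rm, map_act, map_act] at hD
    exact hX.ndist q hq hu (dist_back (map_unit _ hV.det) hD)

theorem XTQ_act {κ : ℕ} (hκ : (2 * g + 1) ^ 2 ≤ 2 ^ κ) {c : ℕ} {S Z U : Finset ℕ}
    {𝔮 : ℕ → Ideal (𝓞 F)} {P : ℕ → (𝓞 F)[X]} {N : ℕ}
    {w : Fin (2 * g + 1) → ℤ} {A B V : Mt g (𝓞 F)} (hX : XTQ g N c w S Z U 𝔮 P A B) (hV : Uni w V) :
    XTQ g (N + κ) (c + κ) w S Z U 𝔮 P (Vᵀ * A * V) (Vᵀ * B * V) := by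
  rw [xq_iff, SA_act hV.det]
  exact XT_act hκ (xq_iff.1 hX) hV

/-- the constants are independent of `c` -/
theorem orbT (hP : S_PTS) (F : Type) [Field F] [NumberField F] (g : ℕ) : ∃ κ C : ℕ, ∀ (c : ℕ)
    (S Z U : Finset ℕ) (𝔮 : ℕ → Ideal (𝓞 F)) (P : ℕ → (𝓞 F)[X]) (N : ℕ)
    (w : Fin (2 * g + 1) → ℤ), Typ g w →
    {p : Mt g (𝓞 F) × Mt g (𝓞 F) | XTQ g (N + κ) (c + κ) w S Z U 𝔮 P p.1 p.2}.Finite →
    {f : (𝓞 F)[X] | Irreducible (fF f) ∧ ∃ A B : Mt g (𝓞 F), XTQ g N c w S Z U 𝔮 P A B ∧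
      chp (mF A) (mF B) = fF f}.ncard * 2 ^ (Module.finrank ℚ F * eU g w) ≤
    C * {p : Mt g (𝓞 F) × Mt g (𝓞 F) | XTQ g (N + κ) (c + κ) w S Z U 𝔮 P p.1 p.2}.ncard := by
  obtain ⟨-, C0, hC0, hC, -⟩ := hP F
  refine ⟨2 * (2 * g + 1), ⌈C0⌉₊ ^ Fintype.card (Ix g), ?_⟩
  intro c S Z U 𝔮 P N w hw hfin
  have hcard := card_par (F := F) (C := ⌈C0⌉₊) (fun R hR => (hC R hR).2.trans
    (mul_le_mul_of_nonneg_right (Nat.le_ceil C0) (Nat.cast_nonneg _))) hw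
  have hκ : (2 * g + 1) ^ 2 ≤ 2 ^ (2 * (2 * g + 1)) := by
    rw [mul_comm 2 (2 * g + 1), pow_mul]
    exact Nat.pow_le_pow_left (Nat.lt_two_pow_self).le 2
  obtain ⟨κ, hκe⟩ : ∃ κ, κ = 2 * (2 * g + 1) := ⟨_, rfl⟩
  rw [← hκe] at hκ hfin ⊢
  have hfin' : Finite {p : Mt g (𝓞 F) × Mt g (𝓞 F) |
    XTQ g (N + κ) (c + κ) w S Z U 𝔮 P p.1 p.2} := hfin.to_subtype
  refine (Nat.mul_le_mul_left _ hcard).trans ?_
  rw [Nat.mul_left_comm]
  refine Nat.mul_le_mul_left _ ?_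
  rw [← Nat.card_coe_set_eq, ← Nat.card_prod, ← Nat.card_coe_set_eq]
  have hch : ∀ f : {f : (𝓞 F)[X] | Irreducible (fF f) ∧
      ∃ A B : Mt g (𝓞 F), XTQ g N c w S Z U 𝔮 P A B ∧ chp (mF A) (mF B) = fF f},
      ∃ A B : Mt g (𝓞 F), XTQ g N c w S Z U 𝔮 P A B ∧ chp (mF A) (mF B) = fF f.1 := fun f => f.2.2
  choose A B hB1 hB2 using hch
  refine Nat.card_le_card_of_injective
    (fun z => (⟨((mat z.2)ᵀ * A z.1 * mat z.2, (mat z.2)ᵀ * B z.1 * mat z.2),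
      XTQ_act hκ (hB1 z.1) (mat_uni z.2)⟩ :
      {p : Mt g (𝓞 F) × Mt g (𝓞 F) | XTQ g (N + κ) (c + κ) w S Z U 𝔮 P p.1 p.2})) ?_
  rintro ⟨f, u⟩ ⟨f', u'⟩ he
  have h0 : ((mat u)ᵀ * A f * mat u, (mat u)ᵀ * B f * mat u) =
      ((mat u')ᵀ * A f' * mat u', (mat u')ᵀ * B f' * mat u') := congrArg Subtype.val he
  have h4 : (mat u)ᵀ * A f * mat u = (mat u')ᵀ * A f' * mat u' := congrArg Prod.fst h0
  have h5 : (mat u)ᵀ * B f * mat u = (mat u')ᵀ * B f' * mat u' := congrArg Prod.snd h0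
  have h6 : f = f' := by
    apply Subtype.ext
    apply Polynomial.map_injective (algebraMap (𝓞 F) F) RingOfIntegers.coe_injective
    have e1 := hB2 f
    have e2 := hB2 f'
    rw [← chp_act (A := mF (A f)) (B := mF (B f)) (map_unit (algebraMap (𝓞 F) F) (mat_uni u).det),
      ← map_act, ← map_act, h4, h5, map_act, map_act,
      chp_act (map_unit (algebraMap (𝓞 F) F) (mat_uni u').det), e2] at e1
    exact e1.symm
  subst h6
  have h7 := free (A := A f) (B := B f) (by rw [hB2 f]; exact f.2.1) (mat_uni u)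
    (mat_uni u') h4 h5
  rw [mat_inj h7]

end Pool.Agent.H33PR
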