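import Pool.Agent.H68K.PR.Stm
import Pool.Agent.H33PR.Uni

/-!
# Project PR (helper68), part UNI (helper33)
-/

set_option autoImplicit false

namespace Pool.Agent.H33PR

theorem uni : Pool.Agent.H68K.PR.S_UNI := fun F L _ _ _ _ _ hodd T hT => uni_aux F L hodd T hT

end Pool.Agent.H33PR
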