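import Mathlib

/-!
# Project PR (helper68), part UNI: counting in finite abelian groups (helper33)
-/

set_option autoImplicit false

open Finset
open scoped symmDiff

namespace Pool.Agent.H33PR

/-- the numbers of square roots of one and of classes modulo squares are equal -/
lemma card_two {G : Type*} [CommGroup G] [Finite G] :
    Nat.card (G ⧸ (powMonoidHom 2 : G →* G).range) = Nat.card {g : G // g ^ 2 = 1} := by
  have h1 := Subgroup.card_eq_card_quotient_mul_card_subgroup (powMonoidHom 2 : G →* G).range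
  have h2 := Subgroup.card_eq_card_quotient_mul_card_subgroup (powMonoidHom 2 : G →* G).ker
  have h3 : Nat.card (G ⧸ (powMonoidHom 2 : G →* G).ker) =
      Nat.card (powMonoidHom 2 : G →* G).range :=
    Nat.card_congr (QuotientGroup.quotientKerEquivRange _).toEquiv
  have h4 : Nat.card (powMonoidHom 2 : G →* G).ker = Nat.card {g : G // g ^ 2 = 1} := rfl
  rw [h3, h4, mul_comm] at h2
  have h5 : 0 < Nat.card (powMonoidHom 2 : G →* G).range := Nat.card_pos
  exact Nat.eq_of_mul_eq_mul_right h5 (h1.symm.trans h2)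

lemma prod_symm {G : Type*} [CommGroup G] {ι : Type*} [DecidableEq ι] (g : ι → G)
    (c c' : Finset ι) :
    (∏ t ∈ c, g t) * ∏ t ∈ c', g t = (∏ t ∈ c ∩ c', g t) ^ 2 * ∏ t ∈ c ∆ c', g t := by
  have h1 : ∏ t ∈ c, g t = (∏ t ∈ c \ c', g t) * ∏ t ∈ c ∩ c', g t := by
    rw [← prod_union (disjoint_sdiff_inter c c'), sdiff_union_inter]
  have h2 : ∏ t ∈ c', g t = (∏ t ∈ c' \ c, g t) * ∏ t ∈ c ∩ c', g t := by
    rw [inter_comm, ← prod_union (disjoint_sdiff_inter c' c), sdiff_union_inter]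
  have h3 : ∏ t ∈ c ∆ c', g t = (∏ t ∈ c \ c', g t) * ∏ t ∈ c' \ c, g t := by
    rw [symmDiff_def]
    exact prod_union disjoint_sdiff_sdiff
  rw [h1, h2, h3, pow_two]
  exact (by
    intro a b d
    rw [mul_mul_mul_comm, mul_comm] : ∀ a b d : G, (a * d) * (b * d) = d * d * (a * b)) _ _ _

/-- The number of the relations between the squares and the `g t`, `t ∈ T`. -/
lemma grp {G : Type} [CommGroup G] [Finite G] {ι : Type} [DecidableEq ι] (T : Finset ι)
    (g : ι → G) {Z : Type} [Finite Z] (s : Z → G)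
    (hs : ∀ z z' : Z, (∃ (b : G) (c : Finset ι), c ⊆ T ∧ s z = s z' * b ^ 2 * ∏ t ∈ c, g t) →
      z = z') :
    2 ^ T.card * Nat.card Z ≤
      Nat.card {p : G × T.powerset // p.1 ^ 2 * ∏ t ∈ p.2.1, g t = 1} := by
  classical
  have : Fintype Z := Fintype.ofFinite Z
  set Sq := (powMonoidHom 2 : G →* G).range with hSq
  have : Fintype (G ⧸ Sq) := Fintype.ofFinite _
  set K := T.powerset.filter fun c => ∏ t ∈ c, g t ∈ Sq with hK
  have hmem : ∀ x : G, x ∈ Sq ↔ ∃ y : G, y ^ 2 = x := fun x => Iff.rfl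
  -- the number of the relations
  have h1 : K.card * Nat.card {g : G // g ^ 2 = 1} ≤
      Nat.card {p : G × T.powerset // p.1 ^ 2 * ∏ t ∈ p.2.1, g t = 1} := by
    have h2 : ∀ c : K, ∃ y : G, y ^ 2 = ∏ t ∈ c.1, g t := fun c =>
      (hmem _).1 (mem_filter.1 c.2).2
    choose y hy using h2
    have h3 : K.card = Nat.card K := by rw [Nat.card_eq_fintype_card, Fintype.card_coe]
    rw [h3, ← Nat.card_prod]
    refine Nat.card_le_card_of_injective (fun p : K × {g : G // g ^ 2 = 1} =>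
      ⟨((y p.1)⁻¹ * p.2.1, ⟨p.1.1, (mem_filter.1 p.1.2).1⟩), ?_⟩) ?_
    · show ((y p.1)⁻¹ * p.2.1) ^ 2 * ∏ t ∈ p.1.1, g t = 1
      rw [mul_pow, p.2.2, mul_one, inv_pow, hy, inv_mul_cancel]
    · rintro ⟨c, x⟩ ⟨c', x'⟩ h
      have h4 := congrArg Subtype.val h
      have h5 : c.1 = c'.1 := congrArg (fun q => (Prod.snd q).1) h4
      have h6 : c = c' := Subtype.ext h5
      subst h6
      have h7 : (y c)⁻¹ * x.1 = (y c)⁻¹ * x'.1 := congrArg Prod.fst h4
      have h8 : x = x' := Subtype.ext (mul_left_cancel h7)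
      rw [h8]
  -- the fibres
  have h2 : (T.powerset ×ˢ (univ : Finset Z)).card ≤ K.card * Nat.card (G ⧸ Sq) := by
    have hle : ((T.powerset ×ˢ (univ : Finset Z)).image
        fun p => ((s p.2 * ∏ t ∈ p.1, g t : G) : G ⧸ Sq)).card ≤ Nat.card (G ⧸ Sq) := by
      rw [Nat.card_eq_fintype_card]
      exact card_le_univ _
    refine le_trans (card_le_mul_card_image (f := fun p : Finset ι × Z =>
      ((s p.2 * ∏ t ∈ p.1, g t : G) : G ⧸ Sq)) (T.powerset ×ˢ (univ : Finset Z)) K.card ?_)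
      (Nat.mul_le_mul_left _ hle)
    intro q hq
    obtain ⟨⟨c₀, z₀⟩, hp, hq0⟩ := mem_image.1 hq
    rw [mem_product] at hp
    -- all `z` of a fibre are equal
    have key : ∀ p ∈ (T.powerset ×ˢ (univ : Finset Z)).filter
        (fun p : Finset ι × Z => ((s p.2 * ∏ t ∈ p.1, g t : G) : G ⧸ Sq) = q),
        p.2 = z₀ ∧ p.1 ⊆ T ∧ p.1 ∆ c₀ ∈ K := by
      rintro ⟨c, z⟩ hcz
      rw [mem_filter, mem_product] at hcz
      have hcT : c ⊆ T := mem_powerset.1 hcz.1.1
      have hc0T : c₀ ⊆ T := mem_powerset.1 hp.1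
      have hsub : c ∆ c₀ ⊆ T := by
        rw [symmDiff_def]
        exact union_subset (sdiff_subset.trans hcT) (sdiff_subset.trans hc0T)
      have h3 : ((s z * ∏ t ∈ c, g t : G) : G ⧸ Sq) = ((s z₀ * ∏ t ∈ c₀, g t : G) : G ⧸ Sq) :=
        hcz.2.trans hq0.symm
      rw [QuotientGroup.eq, hmem] at h3
      obtain ⟨y, hy⟩ := h3
      have hps := prod_symm g c c₀
      have hps' : (∏ t ∈ c ∆ c₀, g t) =
          ((∏ t ∈ c ∩ c₀, g t) ^ 2)⁻¹ * ((∏ t ∈ c, g t) * ∏ t ∈ c₀, g t) := by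
        rw [hps, inv_mul_cancel_left]
      have hz : z = z₀ := by
        apply hs
        refine ⟨y⁻¹ * (∏ t ∈ c, g t)⁻¹ * ∏ t ∈ c ∩ c₀, g t, c ∆ c₀, hsub, ?_⟩
        rw [hps']
        have hy' : (∏ t ∈ c₀, g t) = (s z₀)⁻¹ * (s z * ∏ t ∈ c, g t) * y ^ 2 := by
          rw [hy]
          group
        rw [hy', mul_pow, mul_pow, inv_pow, inv_pow]
        generalize (∏ t ∈ c, g t) = P
        generalize (∏ t ∈ c ∩ c₀, g t) = Q
        have h9 : s z₀ * ((y ^ 2)⁻¹ * (P ^ 2)⁻¹ * Q ^ 2) *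
            ((Q ^ 2)⁻¹ * (P * ((s z₀)⁻¹ * (s z * P) * y ^ 2))) =
            (s z₀ * (s z₀)⁻¹) * (y ^ 2 * (y ^ 2)⁻¹) * ((P ^ 2)⁻¹ * (P * P)) *
              (Q ^ 2 * (Q ^ 2)⁻¹) * s z := by
          simp only [mul_assoc, mul_comm, mul_left_comm]
        rw [h9, mul_inv_cancel, mul_inv_cancel, mul_inv_cancel, ← pow_two P, inv_mul_cancel]
        simp only [mul_one, one_mul]
      refine ⟨hz, hcT, ?_⟩
      rw [hK, mem_filter]
      refine ⟨mem_powerset.2 hsub, ?_⟩
      rw [hmem]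
      subst hz
      refine ⟨(∏ t ∈ c, g t) * y * (∏ t ∈ c ∩ c₀, g t)⁻¹, ?_⟩
      rw [hps']
      have hy' : (∏ t ∈ c₀, g t) = (∏ t ∈ c, g t) * y ^ 2 := by
        rw [hy]
        group
      rw [hy', mul_pow, mul_pow, inv_pow]
      generalize (∏ t ∈ c, g t) = P
      generalize (∏ t ∈ c ∩ c₀, g t) = Q
      rw [pow_two P]
      simp only [mul_assoc, mul_comm, mul_left_comm]
    refine card_le_card_of_injOn (fun p => p.1 ∆ c₀) (fun p hp' => (key p hp').2.2) ?_
    intro p hp1 p' hp2 hpp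
    have k1 := key p hp1
    have k2 := key p' hp2
    have h5 : p.1 = p'.1 := symmDiff_left_injective c₀ hpp
    exact Prod.ext h5 (k1.1.trans k2.1.symm)
  rw [card_product, card_powerset, card_univ, ← Nat.card_eq_fintype_card, card_two] at h2
  exact h2.trans h1

/-- pigeonhole key -/
lemma exists_key {Z A B : Type*} [Nonempty Z] (f : Z → A) (g : Z → Z → B) (R : Z → Z → Prop)
    (hg : ∀ z0 z z', f z = f z0 → f z' = f z0 → g z0 z = g z0 z' → R z z') :
    ∃ F : Z → A × B, ∀ z z', F z = F z' → R z z' := by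
  classical
  obtain ⟨ρ, hρ⟩ : ∃ ρ : A → Z, ∀ z, f (ρ (f z)) = f z := by
    refine ⟨fun a => if h : ∃ z, f z = a then h.choose else Classical.arbitrary Z, fun z => ?_⟩
    have h : ∃ z', f z' = f z := ⟨z, rfl⟩
    simp only [dif_pos h]
    exact h.choose_spec
  refine ⟨fun z => (f z, g (ρ (f z)) z), ?_⟩
  intro z z' h
  have h1 : f z = f z' := congrArg Prod.fst h
  have h2 : g (ρ (f z)) z = g (ρ (f z')) z' := congrArg Prod.snd h
  rw [← h1] at h2
  exact hg (ρ (f z)) z z' (hρ z).symm (h1.symm.trans (hρ z).symm) h2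

/-- pigeonhole principle -/
lemma exists_fiber {Z X : Type*} [Fintype Z] [Fintype X] [DecidableEq X] [Nonempty Z] (F : Z → X) :
    ∃ x : X, Fintype.card Z ≤ (univ.filter fun z => F z = x).card * Fintype.card X := by
  classical
  by_contra hcon
  push Not at hcon
  have h1 : (univ : Finset Z).card = ∑ x : X, (univ.filter fun z => F z = x).card :=
    card_eq_sum_card_fiberwise (fun z _ => mem_univ (F z))
  have : Nonempty X := ⟨F (Classical.arbitrary Z)⟩
  have h2 : ∑ x : X, (univ.filter fun z => F z = x).card * Fintype.card X <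
      ∑ _x : X, Fintype.card Z := sum_lt_sum_of_nonempty univ_nonempty fun x _ => hcon x
  rw [← sum_mul, ← h1, sum_const, card_univ, card_univ, smul_eq_mul, mul_comm] at h2
  exact lt_irrefl _ h2

end Pool.Agent.H33PR
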