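import Pool.Agent.H64.PR.Hgt
import Pool.Agent.H68K.PR.StmT

/-!
# Project PR, phase 2: from balanced boxes to the height (S_HGT3)

After `Pool/Agent/H64/PR/Hgt.lean` of helper64. By helper33.
-/

set_option autoImplicit false
set_option linter.all false

open Polynomial NumberField NumberField.InfinitePlace
open Pool.Agent.N783.PF
open Pool.Agent.H68K.PR
open Pool.Agent.H64.PR
open scoped Classical

namespace Pool.Agent.H33PR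

section inv

variable {F : Type} [Field F] [NumberField F]

theorem twp_um (u : (𝓞 F)ˣ) (J : Finset ℕ) (p : 𝓞 F × 𝓞 F) : twp J (um u p) = um u (twp J p) := by
  unfold twp um
  ext <;> simp only <;> ring

theorem um_um (u : (𝓞 F)ˣ) (p : 𝓞 F × 𝓞 F) : um u⁻¹ (um u p) = p := by
  have h : ((u⁻¹ : (𝓞 F)ˣ) : 𝓞 F) * (u : 𝓞 F) = 1 := by
    rw [← Units.val_mul, inv_mul_cancel, Units.val_one]
  have h4 : ((u⁻¹ : (𝓞 F)ˣ) : 𝓞 F) ^ 4 * (u : 𝓞 F) ^ 4 = 1 := by rw [← mul_pow, h, one_pow]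
  have h6 : ((u⁻¹ : (𝓞 F)ˣ) : 𝓞 F) ^ 6 * (u : 𝓞 F) ^ 6 = 1 := by rw [← mul_pow, h, one_pow]
  unfold um
  ext
  · simp only
    rw [← mul_assoc, h4, one_mul]
  · simp only
    rw [← mul_assoc, h6, one_mul]

theorem um_um' (u : (𝓞 F)ˣ) (p : 𝓞 F × 𝓞 F) : um u (um u⁻¹ p) = p := by
  have := um_um u⁻¹ p
  rwa [inv_inv] at this

theorem lawP_um {S : Finset ℕ} {m : ℕ} {ε : ℝ} (u : (𝓞 F)ˣ) {p : 𝓞 F × 𝓞 F} (h : LawP S m ε p) :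
    LawP S m ε (um u p) := by
  obtain ⟨e, h1, h2⟩ := h
  refine ⟨e, fun J hJ => ?_, h2⟩
  rw [twp_um]
  exact gd_um u _ _ (h1 J hJ)

theorem lawP_iff {S : Finset ℕ} {m : ℕ} {ε : ℝ} (u : (𝓞 F)ˣ) {p : 𝓞 F × 𝓞 F} :
    LawP S m ε (um u p) ↔ LawP S m ε p := by
  constructor
  · intro h
    have := lawP_um u⁻¹ h
    rwa [um_um] at this
  · exact lawP_um u

theorem inFam_um {N : ℕ} {a b : 𝓞 F} (u : (𝓞 F)ˣ) {p : 𝓞 F × 𝓞 F} (h : InFam N a b p) :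
    InFam N ((u : 𝓞 F) ^ 4 * a) ((u : 𝓞 F) ^ 6 * b) (um u p) := by
  obtain ⟨h1, h2, h3⟩ := h
  refine ⟨?_, ?_, fun 𝔭 hp h0 hd => ?_⟩
  · have e : (um u p).1 - (u : 𝓞 F) ^ 4 * a = (u : 𝓞 F) ^ 4 * (p.1 - a) := by
      unfold um
      ring
    rw [e]
    exact Ideal.mul_mem_left _ _ h1
  · have e : (um u p).2 - (u : 𝓞 F) ^ 6 * b = (u : 𝓞 F) ^ 6 * (p.2 - b) := by
      unfold um
      ring
    rw [e]
    exact Ideal.mul_mem_left _ _ h2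
  · apply h3 𝔭 hp h0
    have e : 4 * (um u p).1 ^ 3 + 27 * (um u p).2 ^ 2 =
        (u : 𝓞 F) ^ 12 * (4 * p.1 ^ 3 + 27 * p.2 ^ 2) := by
      unfold um
      ring
    rw [e] at hd
    have hu : IsUnit ((u : 𝓞 F) ^ 12) := u.isUnit.pow 12
    exact (Ideal.unit_mul_mem_iff_mem _ hu).1 hd

/-- the class of the unit modulo `N` suffices -/
theorem inFam_congr {N : ℕ} {a b : 𝓞 F} {u u' : (𝓞 F)ˣ} (hu : (u : 𝓞 F) - (u' : 𝓞 F) ∈ sp F N)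
    {p : 𝓞 F × 𝓞 F} (h : InFam N ((u : 𝓞 F) ^ 4 * a) ((u : 𝓞 F) ^ 6 * b) p) :
    InFam N ((u' : 𝓞 F) ^ 4 * a) ((u' : 𝓞 F) ^ 6 * b) p := by
  obtain ⟨h1, h2, h3⟩ := h
  have key : ∀ k : ℕ, ∀ c : 𝓞 F, (u : 𝓞 F) ^ k * c - (u' : 𝓞 F) ^ k * c ∈ sp F N := by
    intro k c
    have e : (u : 𝓞 F) ^ k * c - (u' : 𝓞 F) ^ k * c = ((u : 𝓞 F) ^ k - (u' : 𝓞 F) ^ k) * c := by ring
    rw [e]
    apply Ideal.mul_mem_right
    obtain ⟨t, ht⟩ := sub_dvd_pow_sub_pow (u : 𝓞 F) (u' : 𝓞 F) k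
    rw [ht]
    exact Ideal.mul_mem_right _ _ hu
  refine ⟨?_, ?_, h3⟩
  · have e : p.1 - (u' : 𝓞 F) ^ 4 * a = (p.1 - (u : 𝓞 F) ^ 4 * a) +
        ((u : 𝓞 F) ^ 4 * a - (u' : 𝓞 F) ^ 4 * a) := by ring
    rw [e]
    exact Ideal.add_mem _ h1 (key 4 a)
  · have e : p.2 - (u' : 𝓞 F) ^ 6 * b = (p.2 - (u : 𝓞 F) ^ 6 * b) +
        ((u : 𝓞 F) ^ 6 * b - (u' : 𝓞 F) ^ 6 * b) := by ring
    rw [e]
    exact Ideal.add_mem _ h2 (key 6 b)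

theorem inFam_congr_iff {N : ℕ} {a b : 𝓞 F} {u u' : (𝓞 F)ˣ}
    (hu : (u : 𝓞 F) - (u' : 𝓞 F) ∈ sp F N) {p : 𝓞 F × 𝓞 F} :
    InFam N ((u : 𝓞 F) ^ 4 * a) ((u : 𝓞 F) ^ 6 * b) p ↔
    InFam N ((u' : 𝓞 F) ^ 4 * a) ((u' : 𝓞 F) ^ 6 * b) p := by
  refine ⟨inFam_congr hu, inFam_congr ?_⟩
  have e : (u' : 𝓞 F) - (u : 𝓞 F) = -((u : 𝓞 F) - (u' : 𝓞 F)) := by ring
  rw [e]
  exact Ideal.neg_mem_iff _ |>.2 hu

/-- finitely many classes of units -/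
theorem unit_classes (F : Type) [Field F] [NumberField F] {N : ℕ} (hN : 0 < N) :
    ∃ T : Finset (𝓞 F)ˣ, ∀ u : (𝓞 F)ˣ, ∃ u' ∈ T, (u : 𝓞 F) - (u' : 𝓞 F) ∈ sp F N := by
  have hb : sp F N ≠ ⊥ := by
    rw [sp, Ne, Ideal.span_singleton_eq_bot]
    exact_mod_cast hN.ne'
  haveI : Finite (𝓞 F ⧸ sp F N) := Ideal.finiteQuotientOfFreeOfNeBot _ hb
  let f : (𝓞 F)ˣ → 𝓞 F ⧸ sp F N := fun u => Ideal.Quotient.mk _ (u : 𝓞 F)
  have hfin : (Set.range f).Finite := Set.toFinite _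
  have hch : ∀ y : Set.range f, ∃ u, f u = y.1 := fun y => y.2
  choose s hs using hch
  haveI : Fintype (Set.range f) := hfin.fintype
  refine ⟨Finset.univ.image s, fun u => ⟨s ⟨f u, u, rfl⟩, Finset.mem_image_of_mem _ (Finset.mem_univ _), ?_⟩⟩
  rw [← Ideal.Quotient.eq]
  exact (hs ⟨f u, u, rfl⟩).symm

end inv

theorem hgt3 : S_HGT3 := by
  intro hBal F _ _ ε hε
  obtain ⟨C, hC, hU⟩ := unb F
  obtain ⟨K, hK, hbx⟩ := bx_fin F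
  have hC0 : 0 < C := zero_lt_one.trans_le hC
  set d : ℕ := Module.finrank ℚ F with hd
  have hd0 : 0 < d := Module.finrank_pos
  obtain ⟨S, m, N, a, b, hm, hmS, hN, hOk, c, hc, hB⟩ := hBal F ε (ε / (8 * C ^ 4) ^ (5 * d)) hε
    (by positivity)
  refine ⟨S, m, N, a, b, hm, hmS, hN, hOk, ?_⟩
  -- a uniform bound
  obtain ⟨T, hT⟩ := unit_classes F hN
  choose B₀ hB₀ using hB
  set B₁ : ℕ := T.sup B₀ with hB₁
  have hB : ∀ u : (𝓞 F)ˣ, ∀ B : ℕ, B₁ ≤ B →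
      c * (B : ℝ) ^ (5 * d) ≤
      ({p : 𝓞 F × 𝓞 F | Bd (p.1 : F) ((B : ℝ) ^ 2) ∧ Bd (p.2 : F) ((B : ℝ) ^ 3) ∧
        InFam N ((u : 𝓞 F) ^ 4 * a) ((u : 𝓞 F) ^ 6 * b) p}.ncard : ℝ) ∧
      ({p : 𝓞 F × 𝓞 F | Bd (p.1 : F) ((B : ℝ) ^ 2) ∧ Bd (p.2 : F) ((B : ℝ) ^ 3) ∧
        InFam N ((u : 𝓞 F) ^ 4 * a) ((u : 𝓞 F) ^ 6 * b) p ∧ ¬ LawP S m ε p}.ncard : ℝ) ≤
      (ε / (8 * C ^ 4) ^ (5 * d)) * (c * (B : ℝ) ^ (5 * d)) := by
    intro u B hBB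
    obtain ⟨u', hu', huu⟩ := hT u
    have h1 := hB₀ u' B ((Finset.le_sup hu').trans hBB)
    have e1 : {p : 𝓞 F × 𝓞 F | Bd (p.1 : F) ((B : ℝ) ^ 2) ∧ Bd (p.2 : F) ((B : ℝ) ^ 3) ∧
        InFam N ((u : 𝓞 F) ^ 4 * a) ((u : 𝓞 F) ^ 6 * b) p} =
        {p : 𝓞 F × 𝓞 F | Bd (p.1 : F) ((B : ℝ) ^ 2) ∧ Bd (p.2 : F) ((B : ℝ) ^ 3) ∧
        InFam N ((u' : 𝓞 F) ^ 4 * a) ((u' : 𝓞 F) ^ 6 * b) p} := by
      ext p
      simp only [Set.mem_setOf_eq]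
      rw [inFam_congr_iff huu]
    have e2 : {p : 𝓞 F × 𝓞 F | Bd (p.1 : F) ((B : ℝ) ^ 2) ∧ Bd (p.2 : F) ((B : ℝ) ^ 3) ∧
        InFam N ((u : 𝓞 F) ^ 4 * a) ((u : 𝓞 F) ^ 6 * b) p ∧ ¬ LawP S m ε p} =
        {p : 𝓞 F × 𝓞 F | Bd (p.1 : F) ((B : ℝ) ^ 2) ∧ Bd (p.2 : F) ((B : ℝ) ^ 3) ∧
        InFam N ((u' : 𝓞 F) ^ 4 * a) ((u' : 𝓞 F) ^ 6 * b) p ∧ ¬ LawP S m ε p} := by
      ext p
      simp only [Set.mem_setOf_eq]
      rw [inFam_congr_iff huu]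
    rw [e1, e2]
    exact h1
  set M : ℕ := Fintype.card (InfinitePlace F) with hM
  have hM0 : 0 < M := Fintype.card_pos
  set e : ℝ := M / (12 * d) with he
  have he0 : 0 < e := by positivity
  have hlim : Filter.Tendsto (fun Y : ℝ => Y ^ e) Filter.atTop Filter.atTop :=
    tendsto_rpow_atTop he0
  obtain ⟨Y₁, hY₁⟩ := Filter.eventually_atTop.1
    (hlim.eventually_ge_atTop (C * (B₁ + 1)))
  refine ⟨c / (K * (2 * C ^ 4) ^ (5 * d)), by positivity, max 1 Y₁, fun Y => ⟨hle_fin Y, ?_⟩⟩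
  intro hY
  have hY1 : 1 ≤ Y := (le_max_left _ _).trans hY
  have hY0 : 0 < Y := zero_lt_one.trans_le hY1
  set l : ℝ := Y ^ e with hl
  have hl0 : 0 < l := Real.rpow_pos_of_pos hY0 _
  have hlB : C * (B₁ + 1) ≤ l := hY₁ Y ((le_max_right _ _).trans hY)
  have hprod : l ^ d = ∏ v : InfinitePlace F, Rv Y v ^ v.mult := by
    rw [Finset.prod_congr rfl fun v _ => Rv_pow_mult hY0 v, Finset.prod_const, Finset.card_univ,
      ← hM, hl, ← Real.rpow_natCast, ← Real.rpow_mul hY0.le, ← Real.rpow_natCast,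
      ← Real.rpow_mul hY0.le]
    congr 1
    rw [he]
    field_simp
  obtain ⟨u, hu⟩ := hU (Rv Y) (Rv_pos hY0) l hl0 hprod
  set ρ : ℝ := (C * l) ^ 2 with hρ
  have hl1 : 1 ≤ l / C := by
    rw [le_div_iff₀ hC0]
    nlinarith [Nat.cast_nonneg (α := ℝ) B₁]
  have hlB' : (B₁ : ℝ) + 1 ≤ l / C := by
    rw [le_div_iff₀ hC0]
    linarith
  have hρ1 : 1 ≤ ρ := by
    rw [hρ]
    have h1 : 1 ≤ l := by
      rw [le_div_iff₀ hC0] at hl1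
      linarith
    exact one_le_pow₀ (one_le_mul_of_one_le_of_one_le hC h1)
  set B : ℕ := ⌊(l / C) ^ 2⌋₊ with hBdef
  have hBle : (B : ℝ) ≤ (l / C) ^ 2 := Nat.floor_le (by positivity)
  have hsq : l / C ≤ (l / C) ^ 2 := le_self_pow₀ hl1 two_ne_zero
  have hB1 : (1 : ℝ) ≤ B := by
    have : 1 ≤ B := Nat.le_floor (by push_cast; linarith)
    exact_mod_cast this
  have hBge : (l / C) ^ 2 ≤ 2 * (B : ℝ) := by
    have h1 : (l / C) ^ 2 < B + 1 := Nat.lt_floor_add_one _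
    linarith
  have hBB : B₁ ≤ B := Nat.le_floor (by linarith)
  have hρB : ρ / (2 * C ^ 4) ≤ B := by
    have : ρ / (2 * C ^ 4) = (l / C) ^ 2 / 2 := by
      rw [hρ]
      field_simp
    rw [this]
    linarith
  -- lower bound for the family
  have hlow : c * (B : ℝ) ^ (5 * d) ≤ ({p : 𝓞 F × 𝓞 F | Hle Y p ∧ InFam N a b p}.ncard : ℝ) := by
    refine (hB u B hBB).1.trans ?_
    have : {p : 𝓞 F × 𝓞 F | Bd (p.1 : F) ((B : ℝ) ^ 2) ∧ Bd (p.2 : F) ((B : ℝ) ^ 3) ∧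
        InFam N ((u : 𝓞 F) ^ 4 * a) ((u : 𝓞 F) ^ 6 * b) p}.ncard ≤
        {p : 𝓞 F × 𝓞 F | Hle Y p ∧ InFam N a b p}.ncard := by
      refine Set.ncard_le_ncard_of_injOn (um u⁻¹) ?_ (um_inj _).injOn
        ((hle_fin Y).subset fun p hp => hp.1)
      rintro p ⟨h1, h2, h3⟩
      refine ⟨map_inv_box hY0 hC0 hl0 u (fun v => (hu v).1) B (Nat.cast_nonneg _) hBle p
        ⟨h1, h2⟩, ?_⟩
      have h4 := inFam_um u⁻¹ h3
      have i4 : ((u⁻¹ : (𝓞 F)ˣ) : 𝓞 F) ^ 4 * ((u : 𝓞 F) ^ 4 * a) = a := by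
        rw [← mul_assoc, ← mul_pow, ← Units.val_mul, inv_mul_cancel, Units.val_one, one_pow, one_mul]
      have i6 : ((u⁻¹ : (𝓞 F)ˣ) : 𝓞 F) ^ 6 * ((u : 𝓞 F) ^ 6 * b) = b := by
        rw [← mul_assoc, ← mul_pow, ← Units.val_mul, inv_mul_cancel, Units.val_one, one_pow, one_mul]
      rwa [i4, i6] at h4
    exact_mod_cast this
  refine ⟨?_, ?_, ?_⟩
  · -- positivity
    rw [Set.ncard_pos ((hle_fin Y).subset fun p hp => hp.1)]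
    refine ⟨(0, 1), ?_, ?_⟩
    · rw [hle_iff hY0]
      intro v
      have h1 : 1 ≤ Rv Y v := Real.one_le_rpow hY1 (by positivity)
      constructor
      · simp only [map_zero]
        positivity
      · simp only [map_one]
        exact one_le_pow₀ h1
    · simp
  · -- the proportion of the family
    have hup : ({p : 𝓞 F × 𝓞 F | Hle Y p ∧ 4 * p.1 ^ 3 + 27 * p.2 ^ 2 ≠ 0}.ncard : ℝ) ≤
        K * ρ ^ (5 * d) := by
      refine le_trans ?_ (hbx ρ hρ1).2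
      have : {p : 𝓞 F × 𝓞 F | Hle Y p ∧ 4 * p.1 ^ 3 + 27 * p.2 ^ 2 ≠ 0}.ncard ≤
          (bx F ρ).ncard :=
        Set.ncard_le_ncard_of_injOn (um u)
          (fun p hp => map_box hY0 hC0 hl0 u (fun v => (hu v).2) p hp.1)
          (um_inj u).injOn (hbx ρ hρ1).1
      exact_mod_cast this
    refine le_trans ?_ hlow
    calc c / (K * (2 * C ^ 4) ^ (5 * d)) *
          ({p : 𝓞 F × 𝓞 F | Hle Y p ∧ 4 * p.1 ^ 3 + 27 * p.2 ^ 2 ≠ 0}.ncard : ℝ) ≤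
          c / (K * (2 * C ^ 4) ^ (5 * d)) * (K * ρ ^ (5 * d)) :=
          mul_le_mul_of_nonneg_left hup (by positivity)
      _ = c * (ρ / (2 * C ^ 4)) ^ (5 * d) := by
          rw [div_pow]
          field_simp
      _ ≤ c * (B : ℝ) ^ (5 * d) :=
          mul_le_mul_of_nonneg_left (pow_le_pow_left₀ (by positivity) hρB _) hc.le
  · -- the proportion of the bad ones
    set R : ℕ := ⌈ρ⌉₊ with hR
    have hρR : ρ ≤ R := Nat.le_ceil _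
    have hR2 : (R : ℝ) ≤ 2 * ρ := by
      have := Nat.ceil_lt_add_one (zero_le_one.trans hρ1)
      linarith
    have hBR : B₁ ≤ R := by
      have h1 : (B : ℝ) ≤ R := by
        refine le_trans ?_ hρR
        refine hBle.trans ?_
        rw [hρ]
        refine pow_le_pow_left₀ (by positivity) ?_ 2
        rw [div_le_iff₀ hC0]
        nlinarith [mul_le_mul hC hC zero_le_one hC0.le]
      exact hBB.trans (by exact_mod_cast h1)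
    have hbadle : ({p : 𝓞 F × 𝓞 F | Hle Y p ∧ InFam N a b p ∧ ¬ LawP S m ε p}.ncard : ℝ) ≤
        ({p : 𝓞 F × 𝓞 F | Bd (p.1 : F) ((R : ℝ) ^ 2) ∧ Bd (p.2 : F) ((R : ℝ) ^ 3) ∧
        InFam N ((u : 𝓞 F) ^ 4 * a) ((u : 𝓞 F) ^ 6 * b) p ∧ ¬ LawP S m ε p}.ncard : ℝ) := by
      have hfin : {p : 𝓞 F × 𝓞 F | Bd (p.1 : F) ((R : ℝ) ^ 2) ∧ Bd (p.2 : F) ((R : ℝ) ^ 3) ∧
        InFam N ((u : 𝓞 F) ^ 4 * a) ((u : 𝓞 F) ^ 6 * b) p ∧ ¬ LawP S m ε p}.Finite :=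
        (hbx R (hρ1.trans hρR)).1.subset fun p hp => ⟨hp.1, hp.2.1⟩
      have : {p : 𝓞 F × 𝓞 F | Hle Y p ∧ InFam N a b p ∧ ¬ LawP S m ε p}.ncard ≤
          {p : 𝓞 F × 𝓞 F | Bd (p.1 : F) ((R : ℝ) ^ 2) ∧ Bd (p.2 : F) ((R : ℝ) ^ 3) ∧
        InFam N ((u : 𝓞 F) ^ 4 * a) ((u : 𝓞 F) ^ 6 * b) p ∧ ¬ LawP S m ε p}.ncard := by
        refine Set.ncard_le_ncard_of_injOn (um u) ?_ (um_inj u).injOn hfin
        rintro p ⟨h1, h2, h3⟩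
        have h4 := map_box hY0 hC0 hl0 u (fun v => (hu v).2) p h1
        have hρ0 : (0 : ℝ) ≤ ρ := zero_le_one.trans hρ1
        refine ⟨?_, ?_, inFam_um u h2, fun h5 => h3 ((lawP_iff u).1 h5)⟩
        · rw [bd_iff]
          exact fun v => ((bd_iff _ _).1 h4.1 v).trans (pow_le_pow_left₀ hρ0 hρR 2)
        · rw [bd_iff]
          exact fun v => ((bd_iff _ _).1 h4.2 v).trans (pow_le_pow_left₀ hρ0 hρR 3)
      exact_mod_cast this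
    refine hbadle.trans ((hB u R hBR).2.trans ?_)
    have hRB : (R : ℝ) ≤ 8 * C ^ 4 * B := by
      have h1 : ρ ≤ B * (2 * C ^ 4) := by
        rwa [div_le_iff₀ (by positivity)] at hρB
      nlinarith [pow_pos hC0 4]
    calc ε / (8 * C ^ 4) ^ (5 * d) * (c * (R : ℝ) ^ (5 * d)) ≤
          ε / (8 * C ^ 4) ^ (5 * d) * (c * (8 * C ^ 4 * B) ^ (5 * d)) := by
          refine mul_le_mul_of_nonneg_left (mul_le_mul_of_nonneg_left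
            (pow_le_pow_left₀ (Nat.cast_nonneg _) hRB _) hc.le) (by positivity)
      _ = ε * (c * (B : ℝ) ^ (5 * d)) := by
          have h8 : (8 * C ^ 4) ^ (5 * d) ≠ 0 := by positivity
          rw [mul_pow (8 * C ^ 4) (B : ℝ)]
          field_simp
      _ ≤ _ := mul_le_mul_of_nonneg_left hlow hε.le

end Pool.Agent.H33PR
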