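import Pool.Agent.H33PR.Unt

/-!
# Project PR (helper68), part UNI: ideals and classes (helper33)
-/

set_option autoImplicit false

open Finset IsDedekindDomain
open scoped nonZeroDivisors

namespace Pool.Agent.H33PR

section ded

variable {O : Type} [CommRing O] [IsDedekindDomain O]

/-- the multiplicity of a prime ideal in an ideal -/
noncomputable def cnt (v : HeightOneSpectrum O) (I : Ideal O) : ℕ :=
  (Associates.mk v.asIdeal).count (Associates.mk I).factors

lemma cnt_mul (v : HeightOneSpectrum O) {I J : Ideal O} (hI : I ≠ 0) (hJ : J ≠ 0) :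
    cnt v (I * J) = cnt v I + cnt v J := by
  unfold cnt
  rw [← Associates.mk_mul_mk, Associates.count_mul (Associates.mk_ne_zero.2 hI)
    (Associates.mk_ne_zero.2 hJ) v.associates_irreducible]

lemma cnt_one (v : HeightOneSpectrum O) : cnt v (1 : Ideal O) = 0 := by
  have h := cnt_mul v (I := (1 : Ideal O)) (J := 1) one_ne_zero one_ne_zero
  rw [one_mul] at h
  omega

lemma cnt_self (v : HeightOneSpectrum O) : cnt v v.asIdeal = 1 :=
  Associates.count_self v.associates_irreducible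

lemma cnt_of_ne {v w : HeightOneSpectrum O} (h : w ≠ v) : cnt v w.asIdeal = 0 := by
  refine Associates.count_eq_zero_of_ne v.associates_irreducible w.associates_irreducible ?_
  intro he
  rw [Associates.mk_eq_mk_iff_associated, associated_iff_eq] at he
  exact h (HeightOneSpectrum.ext he.symm)

lemma prod_ne (c : Finset (HeightOneSpectrum O)) : (∏ w ∈ c, w.asIdeal) ≠ 0 :=
  prod_ne_zero_iff.2 fun w _ => w.ne_bot

lemma cnt_prod [DecidableEq (HeightOneSpectrum O)] (v : HeightOneSpectrum O)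
    (c : Finset (HeightOneSpectrum O)) :
    cnt v (∏ w ∈ c, w.asIdeal) = if v ∈ c then 1 else 0 := by
  induction c using Finset.induction_on with
  | empty => rw [prod_empty, cnt_one, if_neg (notMem_empty v)]
  | insert a s ha ih =>
    rw [prod_insert ha, cnt_mul v a.ne_bot (prod_ne s), ih]
    by_cases hav : a = v
    · subst hav
      rw [cnt_self, if_neg ha, if_pos (mem_insert_self _ _)]
    · rw [cnt_of_ne hav, zero_add]
      have : v ∈ insert a s ↔ v ∈ s := by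
        rw [mem_insert]
        exact ⟨fun h => h.resolve_left (Ne.symm hav), Or.inr⟩
      simp only [this]

lemma cnt_data [DecidableEq (HeightOneSpectrum O)] (v : HeightOneSpectrum O) {𝔟 : Ideal O}
    (hb : 𝔟 ≠ 0) (c : Finset (HeightOneSpectrum O)) :
    cnt v (𝔟 ^ 2 * ∏ w ∈ c, w.asIdeal) = 2 * cnt v 𝔟 + if v ∈ c then 1 else 0 := by
  rw [cnt_mul v (pow_ne_zero 2 hb) (prod_ne c), cnt_prod, pow_two, cnt_mul v hb hb]
  ring

variable (K : Type) [Field K] [Algebra O K] [IsFractionRing O K]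

/-- even valuations -/
lemma ev_of_span (v : HeightOneSpectrum O) {a : O} (ha : a ≠ 0) {𝔟 : Ideal O} (hb : 𝔟 ≠ 0)
    (c : Finset (HeightOneSpectrum O)) (hspan : Ideal.span {a} = 𝔟 ^ 2 * ∏ w ∈ c, w.asIdeal)
    (hv : v ∉ c) : ∃ y : K, v.valuation K (algebraMap O K a) = v.valuation K y ^ 2 := by
  classical
  obtain ⟨π, hπ⟩ := v.valuation_exists_uniformizer K
  refine ⟨π ^ cnt v 𝔟, ?_⟩
  have h1 := cnt_data v hb c
  rw [if_neg hv, add_zero, ← hspan] at h1
  unfold cnt at h1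
  rw [HeightOneSpectrum.valuation_of_algebraMap, HeightOneSpectrum.intValuation_if_neg v ha, h1,
    map_pow, hπ, ← pow_mul, ← WithZero.exp_nsmul]
  congr 1
  unfold cnt
  push_cast
  simp only [nsmul_eq_mul]
  push_cast
  ring

/-- the class of a prime ideal -/
noncomputable def cls (v : HeightOneSpectrum O) : ClassGroup O :=
  ClassGroup.mk0 ⟨v.asIdeal, mem_nonZeroDivisors_of_ne_zero v.ne_bot⟩

lemma cls_prod (c : Finset (HeightOneSpectrum O)) :
    ∏ t ∈ c, cls t =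
      ClassGroup.mk0 ⟨∏ t ∈ c, t.asIdeal, mem_nonZeroDivisors_of_ne_zero (prod_ne c)⟩ := by
  classical
  unfold cls
  rw [← map_prod]
  congr 1
  apply Subtype.ext
  rw [SubmonoidClass.coe_finsetProd]

/-- a generator of the ideal of a relation -/
lemma exists_gen (β : ClassGroup O) (c : Finset (HeightOneSpectrum O))
    (h : β ^ 2 * ∏ t ∈ c, cls t = 1) :
    ∃ (a : O) (𝔟 : (Ideal O)⁰), a ≠ 0 ∧ ClassGroup.mk0 𝔟 = β ∧
      Ideal.span {a} = (𝔟 : Ideal O) ^ 2 * ∏ t ∈ c, t.asIdeal := by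
  obtain ⟨𝔟, rfl⟩ := ClassGroup.mk0_surjective β
  have hb : (𝔟 : Ideal O) ≠ 0 := nonZeroDivisors.coe_ne_zero 𝔟
  rw [cls_prod, ← map_pow, ← map_mul] at h
  have h1 := (ClassGroup.mk0_eq_one_iff
    (I := (𝔟 : Ideal O) ^ 2 * ∏ t ∈ c, t.asIdeal)
    (mem_nonZeroDivisors_of_ne_zero (mul_ne_zero (pow_ne_zero 2 hb) (prod_ne c)))).1 h
  obtain ⟨a, ha⟩ := h1
  rw [Ideal.submodule_span_eq] at ha
  refine ⟨a, 𝔟, ?_, rfl, ha.symm⟩
  rintro rfl
  rw [Ideal.span_singleton_zero] at ha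
  exact mul_ne_zero (pow_ne_zero 2 hb) (prod_ne c) ha

/-- two relations whose generators have a square as product, up to a unit, are equal -/
lemma rel_unique {β β' : ClassGroup O} {c c' : Finset (HeightOneSpectrum O)}
    (h : β ^ 2 * ∏ t ∈ c, cls t = 1) {a a' : O} {𝔟 𝔟' : (Ideal O)⁰}
    (hβ : ClassGroup.mk0 𝔟 = β) (hβ' : ClassGroup.mk0 𝔟' = β')
    (ha : Ideal.span {a} = (𝔟 : Ideal O) ^ 2 * ∏ t ∈ c, t.asIdeal)
    (ha' : Ideal.span {a'} = (𝔟' : Ideal O) ^ 2 * ∏ t ∈ c', t.asIdeal)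
    {u : Oˣ} {x : O} (hx : x ^ 2 = u * (a * a')) : β = β' ∧ c = c' := by
  classical
  have hb : (𝔟 : Ideal O) ≠ 0 := nonZeroDivisors.coe_ne_zero 𝔟
  have hb' : (𝔟' : Ideal O) ≠ 0 := nonZeroDivisors.coe_ne_zero 𝔟'
  have h1 : (Ideal.span {x}) ^ 2 = (Ideal.span {a}) * Ideal.span {a'} := by
    rw [Ideal.span_singleton_pow, hx, Ideal.span_singleton_mul_span_singleton]
    exact Ideal.span_singleton_mul_left_unit u.isUnit _
  have hA : (Ideal.span {a}) ≠ 0 := by
    rw [ha]; exact mul_ne_zero (pow_ne_zero 2 hb) (prod_ne c)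
  have hA' : (Ideal.span {a'}) ≠ 0 := by
    rw [ha']; exact mul_ne_zero (pow_ne_zero 2 hb') (prod_ne c')
  have hX : (Ideal.span {x}) ≠ 0 := by
    intro h0
    rw [h0] at h1
    exact mul_ne_zero hA hA' (h1.symm.trans (zero_pow two_ne_zero))
  have hc : c = c' := by
    ext v
    have h2 : cnt v ((Ideal.span {x}) ^ 2) = cnt v ((Ideal.span {a}) * Ideal.span {a'}) := by
      rw [h1]
    rw [cnt_mul v hA hA', ha, ha', cnt_data v hb, cnt_data v hb', pow_two, cnt_mul v hX hX] at h2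
    by_cases h3 : v ∈ c <;> by_cases h4 : v ∈ c' <;> simp only [h3, h4, if_true, if_false,
      iff_true, iff_false, iff_self, not_true] at h2 ⊢ <;> omega
  refine ⟨?_, hc⟩
  subst hc
  have h5 : (Ideal.span {x}) ^ 2 = ((𝔟 : Ideal O) * (𝔟' : Ideal O) * ∏ t ∈ c, t.asIdeal) ^ 2 := by
    rw [h1, ha, ha']
    ring
  have h6 : Ideal.span {x} = (𝔟 : Ideal O) * (𝔟' : Ideal O) * ∏ t ∈ c, t.asIdeal := by
    have h7 := (pow_left_inj (n := 2) (a := Ideal.span {x}) two_ne_zero).1 h5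
    exact h7
  have h8 : β * β' * ∏ t ∈ c, cls t = 1 := by
    rw [cls_prod, ← hβ, ← hβ', ← map_mul, ← map_mul]
    have h9 : ((𝔟 * 𝔟' * ⟨∏ t ∈ c, t.asIdeal, mem_nonZeroDivisors_of_ne_zero (prod_ne c)⟩ :
        (Ideal O)⁰) : Ideal O) = Ideal.span {x} := h6.symm
    rw [← ClassGroup.mk0_eq_one_iff (I := Ideal.span {x}) (mem_nonZeroDivisors_of_ne_zero hX) |>.2
      ⟨⟨x, rfl⟩⟩]
    congr 1
    exact Subtype.ext h9
  have h10 : β ^ 2 * ∏ t ∈ c, cls t = β * β' * ∏ t ∈ c, cls t := h.trans h8.symm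
  have h11 := mul_right_cancel h10
  rw [pow_two] at h11
  exact mul_left_cancel h11

end ded

end Pool.Agent.H33PR
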