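import Pool.Agent.H33PR.Grp

/-!
# Project PR (helper68), part UNI: units modulo squares (helper33)
-/

set_option autoImplicit false

open Finset NumberField NumberField.Units

namespace Pool.Agent.H33PR

variable (K : Type) [Field K] [NumberField K]

lemma torsion_two : Nat.card {z : torsion K // z ^ 2 = 1} = 2 := by
  have hm : ((-1 : (𝓞 K)ˣ)) ∈ torsion K := by
    rw [torsion, CommGroup.mem_torsion, isOfFinOrder_iff_pow_eq_one]
    exact ⟨2, by norm_num, by simp⟩
  have h1 : Set.univ = ({⟨1, one_pow 2⟩, ⟨⟨-1, hm⟩, Subtype.ext (by simp)⟩} :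
      Set {z : torsion K // z ^ 2 = 1}) := by
    ext ⟨z, hz⟩
    simp only [Set.mem_univ, Set.mem_insert_iff, Set.mem_singleton_iff, true_iff]
    have h2 : ((z : (𝓞 K)ˣ) : 𝓞 K) ^ 2 = 1 := by
      have := congrArg (fun x : torsion K => (((x : (𝓞 K)ˣ) : 𝓞 K))) hz
      simpa using this
    have h2' : (((z : (𝓞 K)ˣ) : 𝓞 K) - 1) * (((z : (𝓞 K)ˣ) : 𝓞 K) + 1) = 0 := by
      linear_combination h2
    rcases mul_eq_zero.1 h2' with h | h
    · left
      exact Subtype.ext (Subtype.ext (Units.ext (by simpa using sub_eq_zero.1 h)))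
    · right
      exact Subtype.ext (Subtype.ext (Units.ext (by simpa using eq_neg_of_add_eq_zero_left h)))
  rw [← Nat.card_univ, h1, Nat.card_coe_set_eq, Set.ncard_pair]
  intro h
  have h3 := congrArg (fun x : {z : torsion K // z ^ 2 = 1} => (((x.1 : (𝓞 K)ˣ) : 𝓞 K))) h
  simp only [OneMemClass.coe_one, Units.val_one, Units.val_neg] at h3
  have h4 : (2 : 𝓞 K) = 0 := by linear_combination h3
  exact two_ne_zero h4

/-- a root of unity generating the classes modulo squares -/
lemma exists_omega : ∃ ω : torsion K, (∀ z : torsion K, z ^ 2 ≠ ω) ∧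
    ∀ x : torsion K, (∃ z : torsion K, z ^ 2 = x) ∨ ∃ z : torsion K, ω * z ^ 2 = x := by
  set Sq := (powMonoidHom 2 : torsion K →* torsion K).range with hSq
  have hi : Sq.index = 2 := by
    have h := card_two (G := torsion K)
    rw [torsion_two] at h
    exact h
  have hne : Sq ≠ ⊤ := by
    intro h
    rw [h, Subgroup.index_top] at hi
    omega
  obtain ⟨ω, hω⟩ : ∃ ω : torsion K, ω ∉ Sq := by
    by_contra hcon
    push Not at hcon
    exact hne ((Subgroup.eq_top_iff' _).2 hcon)
  refine ⟨ω, fun z hz => hω ⟨z, hz⟩, fun x => ?_⟩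
  by_cases hx : x ∈ Sq
  · left
    exact hx
  · right
    have h1 : ω⁻¹ * x ∈ Sq := by
      rw [Subgroup.mul_mem_iff_of_index_two hi]
      constructor
      · intro h
        exact absurd (Sq.inv_mem_iff.1 h) hω
      · intro h
        exact absurd h hx
    obtain ⟨z, hz⟩ := h1
    have hz' : z ^ 2 = ω⁻¹ * x := hz
    exact ⟨z, by rw [hz', mul_inv_cancel_left]⟩

lemma card_rank : rank K + 1 = Fintype.card (InfinitePlace K) := by
  have h : 0 < Fintype.card (InfinitePlace K) := Fintype.card_pos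
  unfold rank
  omega

/-- representatives of the units modulo squares -/
theorem units_sq : ∃ R : Finset (𝓞 K)ˣ, R.card = 2 ^ Fintype.card (InfinitePlace K) ∧
    (∀ u : (𝓞 K)ˣ, ∃ r ∈ R, ∃ s : (𝓞 K)ˣ, u = r * s ^ 2) ∧
    ∀ r ∈ R, ∀ r' ∈ R, (∃ s : (𝓞 K)ˣ, r * r' = s ^ 2) → r = r' := by
  classical
  obtain ⟨ω, hω, hω'⟩ := exists_omega K
  set f := fundSystem K with hf
  let om : Bool → torsion K := fun b => if b then ω else 1
  let F : Bool × Finset (Fin (rank K)) → (𝓞 K)ˣ := fun p =>
    (om p.1 : (𝓞 K)ˣ) * ∏ i, f i ^ (if i ∈ p.2 then (1 : ℤ) else 0)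
  have key : ∀ p p' : Bool × Finset (Fin (rank K)), (∃ s : (𝓞 K)ˣ, F p * F p' = s ^ 2) →
      p = p' := by
    rintro ⟨b, I⟩ ⟨b', I'⟩ ⟨s, hs⟩
    obtain ⟨⟨z, e⟩, hze, -⟩ := exist_unique_eq_mul_prod K s
    simp only at hze
    have h1 : F (b, I) * F (b', I') = ((om b * om b' : torsion K) : (𝓞 K)ˣ) *
        ∏ i, f i ^ ((if i ∈ I then (1 : ℤ) else 0) + (if i ∈ I' then (1 : ℤ) else 0)) := by
      simp only [F, zpow_add, prod_mul_distrib, Subgroup.coe_mul]
      rw [mul_mul_mul_comm]
    have h2 : s ^ 2 = ((z ^ 2 : torsion K) : (𝓞 K)ˣ) * ∏ i, f i ^ (2 * e i) := by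
      rw [hze, mul_pow, Subgroup.coe_pow, ← prod_pow]
      congr 1
      refine prod_congr rfl fun i _ => ?_
      rw [mul_comm, zpow_mul]
      norm_cast
    obtain ⟨q, -, hq⟩ := exist_unique_eq_mul_prod K (s ^ 2)
    have h3 := hq (om b * om b', fun i => (if i ∈ I then (1 : ℤ) else 0) +
      (if i ∈ I' then (1 : ℤ) else 0)) (hs.symm.trans h1)
    have h4 := hq (z ^ 2, fun i => 2 * e i) h2
    have h5 := h3.trans h4.symm
    have h6 : om b * om b' = z ^ 2 := congrArg Prod.fst h5
    have h7 : ∀ i, (if i ∈ I then (1 : ℤ) else 0) + (if i ∈ I' then (1 : ℤ) else 0) = 2 * e i :=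
      fun i => congrFun (congrArg Prod.snd h5) i
    have hb : b = b' := by
      cases b <;> cases b' <;> simp only [om] at h6 ⊢
      · exact absurd h6.symm (by simpa using hω z)
      · exact absurd h6.symm (by simpa using hω z)
    have hI : I = I' := by
      ext i
      have h8 := h7 i
      constructor
      · intro hi
        by_contra hi'
        rw [if_pos hi, if_neg hi'] at h8
        omega
      · intro hi
        by_contra hi'
        rw [if_neg hi', if_pos hi] at h8
        omega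
    rw [hb, hI]
  have hinj : Function.Injective F := by
    intro p p' h
    exact key p p' ⟨F p', by rw [h, pow_two]⟩
  refine ⟨univ.image F, ?_, ?_, ?_⟩
  · rw [card_image_of_injective _ hinj, card_univ, Fintype.card_prod, Fintype.card_bool,
      Fintype.card_finset, Fintype.card_fin, ← card_rank, pow_succ, mul_comm]
  · intro u
    obtain ⟨⟨z, e⟩, hze, -⟩ := exist_unique_eq_mul_prod K u
    simp only at hze
    set I : Finset (Fin (rank K)) := univ.filter fun i => ¬ Even (e i) with hI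
    have h1 : ∃ b : Bool, ∃ y : torsion K, z = om b * y ^ 2 := by
      rcases hω' z with ⟨y, hy⟩ | ⟨y, hy⟩
      · exact ⟨false, y, by simp [om, hy]⟩
      · exact ⟨true, y, by simp [om, hy]⟩
    obtain ⟨b, y, hy⟩ := h1
    refine ⟨F (b, I), mem_image_of_mem _ (mem_univ _), (y : (𝓞 K)ˣ) * ∏ i, f i ^ (e i / 2), ?_⟩
    rw [hze, hy, mul_pow, ← prod_pow]
    simp only [F, Subgroup.coe_mul, Subgroup.coe_pow]
    rw [mul_mul_mul_comm, ← prod_mul_distrib]
    congr 1
    refine prod_congr rfl fun i _ => ?_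
    rw [← zpow_natCast, ← zpow_mul, ← zpow_add]
    congr 1
    by_cases h : Even (e i)
    · rw [if_neg (by simp [hI, h])]
      obtain ⟨m, hm⟩ := h
      push_cast
      omega
    · rw [if_pos (by rw [hI, mem_filter]; exact ⟨mem_univ _, h⟩)]
      rw [Int.not_even_iff] at h
      push_cast
      omega
  · intro r hr r' hr' h
    obtain ⟨p, -, rfl⟩ := mem_image.1 hr
    obtain ⟨p', -, rfl⟩ := mem_image.1 hr'
    rw [key p p' h]

end Pool.Agent.H33PR
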